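import Mathlib

/-!
# Heights of rational numbers, rational roots
-/

set_option autoImplicit false

namespace Pool.Agent.Q146.PC

open Polynomial

/-- the height of a rational number: the maximum of the absolute values of numerator and
denominator -/
def ht (q : ℚ) : ℤ := max |q.num| (q.den : ℤ)

theorem one_le_ht (q : ℚ) : 1 ≤ ht q :=
  le_max_of_le_right (by exact_mod_cast q.den_pos)

theorem ht_nonneg (q : ℚ) : 0 ≤ ht q := by linarith [one_le_ht q]

theorem ht_div_le (r s : ℤ) (hr : r ≠ 0) (hs : s ≠ 0) : ht ((r : ℚ) / s) ≤ max |r| |s| := by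
  unfold ht
  refine max_le_max ?_ ?_
  · have h := Rat.num_dvd r hs
    rw [Rat.divInt_eq_div] at h
    exact Int.le_of_dvd (abs_pos.2 hr) ((abs_dvd_abs _ _).2 h)
  · have h := Rat.den_dvd r s
    rw [Rat.divInt_eq_div] at h
    have h1 := Int.le_of_dvd (abs_pos.2 hs) ((dvd_abs _ _).2 h)
    exact h1

theorem ht_mul (p q : ℚ) (hp : p ≠ 0) (hq : q ≠ 0) : ht (p * q) ≤ ht p * ht q := by
  have h1 : p * q = ((p.num * q.num : ℤ) : ℚ) / ((p.den * q.den : ℤ) : ℚ) := by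
    conv_lhs => rw [← Rat.num_div_den p, ← Rat.num_div_den q]
    push_cast
    rw [div_mul_div_comm]
  have hd : ((p.den : ℤ) * q.den) ≠ 0 := by
    have := p.den_pos
    have := q.den_pos
    positivity
  rw [h1]
  refine (ht_div_le _ _ (mul_ne_zero (Rat.num_ne_zero.2 hp) (Rat.num_ne_zero.2 hq)) hd).trans ?_
  have a1 : |p.num| ≤ ht p := le_max_left _ _
  have a2 : |q.num| ≤ ht q := le_max_left _ _
  have a3 : (p.den : ℤ) ≤ ht p := le_max_right _ _
  have a4 : (q.den : ℤ) ≤ ht q := le_max_right _ _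
  refine max_le ?_ ?_
  · rw [abs_mul]
    exact mul_le_mul a1 a2 (abs_nonneg _) (ht_nonneg _)
  · rw [abs_mul, abs_of_nonneg (by positivity : (0 : ℤ) ≤ (p.den : ℤ)),
      abs_of_nonneg (by positivity : (0 : ℤ) ≤ (q.den : ℤ))]
    exact mul_le_mul a3 a4 (by positivity) (ht_nonneg _)

theorem ht_inv (q : ℚ) (hq : q ≠ 0) : ht q⁻¹ ≤ ht q := by
  have h1 : q⁻¹ = ((q.den : ℤ) : ℚ) / (q.num : ℚ) := by
    conv_lhs => rw [← Rat.num_div_den q]
    rw [inv_div]
    rfl
  rw [h1]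
  refine (ht_div_le _ _ (by have := q.den_pos; positivity) (Rat.num_ne_zero.2 hq)).trans ?_
  rw [abs_of_nonneg (by positivity : (0 : ℤ) ≤ (q.den : ℤ)), max_comm]
  exact le_rfl

theorem ht_pow (q : ℚ) (n : ℕ) : ht (q ^ n) = ht q ^ n := by
  unfold ht
  rw [Rat.num_pow, Rat.den_pow, abs_pow, Nat.cast_pow]
  rcases le_total |q.num| (q.den : ℤ) with h | h
  · rw [max_eq_right h, max_eq_right (pow_le_pow_left₀ (abs_nonneg _) h n)]
  · rw [max_eq_left h, max_eq_left (pow_le_pow_left₀ (by positivity) h n)]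

theorem ht_zpow_le (q : ℚ) (hq : q ≠ 0) (n : ℤ) : ht (q ^ n) ≤ ht q ^ n.natAbs := by
  rcases Int.natAbs_eq n with h | h
  · conv_lhs => rw [h, zpow_natCast, ht_pow]
  · conv_lhs => rw [h, zpow_neg, zpow_natCast]
    exact (ht_inv _ (pow_ne_zero _ hq)).trans (by rw [ht_pow])

theorem ht_le_zpow (q : ℚ) (hq : q ≠ 0) (n : ℤ) (hn : n ≠ 0) : ht q ≤ ht (q ^ n) := by
  have hn' : n.natAbs ≠ 0 := Int.natAbs_ne_zero.2 hn
  have h0 : ht q ≤ ht q ^ n.natAbs := le_self_pow₀ (one_le_ht q) hn'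
  refine h0.trans ?_
  rw [← ht_pow]
  rcases Int.natAbs_eq n with h | h
  · conv_rhs => rw [h, zpow_natCast]
  · conv_rhs => rw [h, zpow_neg, zpow_natCast]
    have h1 : q ^ n.natAbs = ((q ^ n.natAbs)⁻¹)⁻¹ := (inv_inv _).symm
    conv_lhs => rw [h1]
    exact ht_inv _ (inv_ne_zero (pow_ne_zero _ hq))

/-- Two monomials of small height with independent exponents: the variables have small height. -/
theorem ht_le_of_two {u v : ℚ} (hu : u ≠ 0) (hv : v ≠ 0) {a1 b1 a2 b2 : ℤ}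
    (hdet : a1 * b2 - a2 * b1 ≠ 0) {d : ℕ} (ha1 : a1.natAbs ≤ d) (hb1 : b1.natAbs ≤ d)
    (ha2 : a2.natAbs ≤ d) (hb2 : b2.natAbs ≤ d) {M : ℤ}
    (h1 : ht (u ^ a1 * v ^ b1) ≤ M) (h2 : ht (u ^ a2 * v ^ b2) ≤ M) :
    ht u ≤ M ^ (2 * d) ∧ ht v ≤ M ^ (2 * d) := by
  have hM : 1 ≤ M := (one_le_ht _).trans h1
  have e1 : u ^ a1 * v ^ b1 ≠ 0 := mul_ne_zero (zpow_ne_zero _ hu) (zpow_ne_zero _ hv)
  have e2 : u ^ a2 * v ^ b2 ≠ 0 := mul_ne_zero (zpow_ne_zero _ hu) (zpow_ne_zero _ hv)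
  have key : ∀ k l : ℤ, k.natAbs ≤ d → l.natAbs ≤ d →
      ht ((u ^ a1 * v ^ b1) ^ k * (u ^ a2 * v ^ b2) ^ l) ≤ M ^ (2 * d) := by
    intro k l hk hl
    refine (ht_mul _ _ (zpow_ne_zero _ e1) (zpow_ne_zero _ e2)).trans ?_
    rw [two_mul, pow_add]
    refine mul_le_mul ?_ ?_ (ht_nonneg _) (by positivity)
    · exact (ht_zpow_le _ e1 _).trans ((pow_le_pow_left₀ (ht_nonneg _) h1 _).trans
        (pow_le_pow_right₀ hM hk))
    · exact (ht_zpow_le _ e2 _).trans ((pow_le_pow_left₀ (ht_nonneg _) h2 _).trans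
        (pow_le_pow_right₀ hM hl))
  constructor
  · refine (ht_le_zpow u hu _ hdet).trans ?_
    have h3 := key b2 (-b1) hb2 (by rwa [Int.natAbs_neg])
    have h4 : (u ^ a1 * v ^ b1) ^ b2 * (u ^ a2 * v ^ b2) ^ (-b1) = u ^ (a1 * b2 - a2 * b1) := by
      rw [mul_zpow, mul_zpow, ← zpow_mul, ← zpow_mul, ← zpow_mul, ← zpow_mul]
      have : u ^ (a1 * b2) * v ^ (b1 * b2) * (u ^ (a2 * -b1) * v ^ (b2 * -b1)) =
          (u ^ (a1 * b2) * u ^ (a2 * -b1)) * (v ^ (b1 * b2) * v ^ (b2 * -b1)) := by ring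
      rw [this, ← zpow_add₀ hu, ← zpow_add₀ hv]
      have e3 : b1 * b2 + b2 * -b1 = 0 := by ring
      have e4 : a1 * b2 + a2 * -b1 = a1 * b2 - a2 * b1 := by ring
      rw [e3, e4, zpow_zero, mul_one]
    rwa [h4] at h3
  · refine (ht_le_zpow v hv _ hdet).trans ?_
    have h3 := key (-a2) a1 (by rwa [Int.natAbs_neg]) ha1
    have h4 : (u ^ a1 * v ^ b1) ^ (-a2) * (u ^ a2 * v ^ b2) ^ a1 = v ^ (a1 * b2 - a2 * b1) := by
      rw [mul_zpow, mul_zpow, ← zpow_mul, ← zpow_mul, ← zpow_mul, ← zpow_mul]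
      have : u ^ (a1 * -a2) * v ^ (b1 * -a2) * (u ^ (a2 * a1) * v ^ (b2 * a1)) =
          (u ^ (a1 * -a2) * u ^ (a2 * a1)) * (v ^ (b1 * -a2) * v ^ (b2 * a1)) := by ring
      rw [this, ← zpow_add₀ hu, ← zpow_add₀ hv]
      have e3 : a1 * -a2 + a2 * a1 = 0 := by ring
      have e4 : b1 * -a2 + b2 * a1 = a1 * b2 - a2 * b1 := by ring
      rw [e3, e4, zpow_zero, one_mul]
    rwa [h4] at h3

/-- rational roots -/
theorem ht_root_le (r : ℤ[X]) (hr : r ≠ 0) (x : ℚ) (hx : aeval x r = 0) (B : ℤ)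
    (hB : ∀ k, |r.coeff k| ≤ B) : ht x ≤ B := by
  have hden : (x.den : ℤ) ∣ r.leadingCoeff := by
    have h := den_dvd_of_is_root (A := ℤ) (K := ℚ) hx
    have h2 : Associated ((IsFractionRing.den ℤ x : ℤ)) (x.den : ℤ) :=
      x.associated_num_den.2
    exact h2.symm.dvd.trans h
  have hlead : |r.leadingCoeff| ≤ B := hB _
  have hlead0 : r.leadingCoeff ≠ 0 := leadingCoeff_ne_zero.2 hr
  refine max_le ?_ ?_
  · -- numerator
    by_cases hx0 : x = 0
    · rw [hx0, Rat.num_zero, abs_zero]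
      exact (abs_nonneg _).trans hlead
    obtain ⟨n, hn⟩ : ∃ n, r.natDegree = n := ⟨_, rfl⟩
    clear hden hlead hlead0
    induction n using Nat.strong_induction_on generalizing r with
    | _ n ih =>
      by_cases h0 : r.coeff 0 = 0
      · have hX : r = divX r * X := by
          conv_lhs => rw [← divX_mul_X_add r, h0, C_0, add_zero]
        have hne : divX r ≠ 0 := by
          intro h
          rw [h, zero_mul] at hX
          exact hr hX
        have hx' : aeval x (divX r) = 0 := by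
          rw [hX, map_mul, aeval_X] at hx
          exact (mul_eq_zero.1 hx).resolve_right hx0
        refine ih (divX r).natDegree ?_ (divX r) hne hx' (fun k => ?_) rfl
        · have h1 : r.natDegree = (divX r).natDegree + 1 := by
            conv_lhs => rw [hX]
            rw [natDegree_mul_X hne]
          omega
        · rw [coeff_divX]
          exact hB _
      · have h := num_dvd_of_is_root (A := ℤ) (K := ℚ) hx
        have h2 : Associated (IsFractionRing.num ℤ x) x.num := Rat.isFractionRingNum x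
        have h3 : x.num ∣ r.coeff 0 := h2.symm.dvd.trans h
        have h4 : |x.num| ∣ |r.coeff 0| := (abs_dvd_abs _ _).2 h3
        exact (Int.le_of_dvd (abs_pos.2 h0) h4).trans (hB 0)
  · have h := Int.le_of_dvd (abs_pos.2 hlead0) ((dvd_abs _ _).2 hden)
    exact h.trans hlead

end Pool.Agent.Q146.PC
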