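import Mathlib
import Pool.Agent.TH647.NR.Res
import Pool.Agent.Q146.PC.Ht

/-!
# Plane curves: common zeros of two irreducible polynomials
-/

set_option autoImplicit false

namespace Pool.Agent.Q146.PC

open Polynomial

/-- the polynomial `F`, with rational coefficients -/
noncomputable def toQ (F : ℤ[X][X]) : ℚ[X][X] := F.map (mapRingHom (Int.castRingHom ℚ))

theorem coeff_toQ (F : ℤ[X][X]) (i j : ℕ) :
    ((toQ F).coeff j).coeff i = ((F.coeff j).coeff i : ℚ) := by
  unfold toQ
  rw [coeff_map, coe_mapRingHom, coeff_map]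
  rfl

/-- `F` has degree at most `d` in each variable and coefficients of absolute value at most `H` -/
structure Bd (d : ℕ) (H : ℤ) (F : ℤ[X][X]) : Prop where
  degY : F.natDegree ≤ d
  degX : ∀ j, (F.coeff j).natDegree ≤ d
  coeff_le : ∀ i j, |(F.coeff j).coeff i| ≤ H

theorem evalEval_eq {d : ℕ} (G : ℚ[X][X]) (h1 : G.natDegree ≤ d) (h2 : ∀ j, (G.coeff j).natDegree ≤ d)
    (x y : ℚ) : G.evalEval x y =
      ∑ p : Fin (d + 1) × Fin (d + 1), (G.coeff p.2).coeff p.1 * x ^ (p.1 : ℕ) * y ^ (p.2 : ℕ) := by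
  rw [evalEval, eval_eq_sum_range' (show G.natDegree < d + 1 by omega), eval_finsetSum,
    Fintype.sum_prod_type_right, Finset.sum_range]
  refine Finset.sum_congr rfl fun j _ => ?_
  rw [eval_mul, eval_pow, eval_C, eval_eq_sum_range' (show (G.coeff j).natDegree < d + 1 by
    have := h2 j; omega), Finset.sum_range, Finset.sum_mul]

theorem natDegree_toQ_le {d : ℕ} {H : ℤ} {F : ℤ[X][X]} (h : Bd d H F) :
    (toQ F).natDegree ≤ d ∧ ∀ j, ((toQ F).coeff j).natDegree ≤ d := by
  refine ⟨natDegree_map_le.trans h.degY, fun j => ?_⟩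
  unfold toQ
  rw [coeff_map, coe_mapRingHom]
  exact natDegree_map_le.trans (h.degX j)

theorem evalEval_toQ {d : ℕ} {H : ℤ} {F : ℤ[X][X]} (h : Bd d H F) (x y : ℚ) :
    (toQ F).evalEval x y = ∑ p : Fin (d + 1) × Fin (d + 1),
      ((F.coeff p.2).coeff p.1 : ℚ) * x ^ (p.1 : ℕ) * y ^ (p.2 : ℕ) := by
  rw [evalEval_eq _ (natDegree_toQ_le h).1 (natDegree_toQ_le h).2]
  simp only [coeff_toQ]

/-- a polynomial that does not vanish on a vertical line -/
theorem eval_C_ne_zero {G : ℚ[X][X]} (hG : Irreducible G) (h0 : 0 < G.natDegree) (x : ℚ) :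
    G.map (evalRingHom x) ≠ 0 := by
  intro h
  have hdvd : C (X - C x) ∣ G := by
    rw [C_dvd_iff_dvd_coeff]
    intro j
    have h1 : (G.map (evalRingHom x)).coeff j = 0 := by rw [h, coeff_zero]
    rw [coeff_map, coe_evalRingHom] at h1
    exact dvd_iff_isRoot.2 h1
  obtain ⟨Q, hQ⟩ := hdvd
  rcases hG.isUnit_or_isUnit hQ with h1 | h1
  · rw [isUnit_C] at h1
    exact not_isUnit_X_sub_C x h1
  · have h2 := natDegree_eq_zero_of_isUnit h1
    have h3 : G.natDegree ≤ 0 := by
      rw [hQ]
      refine natDegree_mul_le.trans ?_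
      rw [natDegree_C, h2]
    omega

theorem natDegree_toQ (F : ℤ[X][X]) : (toQ F).natDegree = F.natDegree :=
  natDegree_map_eq_of_injective (map_injective _ (RingHom.injective_int _)) _

/-- the resultant of two polynomials which are irreducible over the rationals -/
theorem resultant_ne_zero' (P Q : ℤ[X][X]) (hP : Irreducible (toQ P)) (hQ : Irreducible (toQ Q))
    (hP0 : 0 < P.natDegree) (hne : ¬ Associated (toQ P) (toQ Q)) :
    resultant P Q ≠ 0 := by
  classical
  have hP0' : 0 < (toQ P).natDegree := by rwa [natDegree_toQ]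
  obtain ⟨ι, hι⟩ : ∃ ι, ι = algebraMap ℚ[X] (FractionRing ℚ[X]) := ⟨_, rfl⟩
  have hinj : Function.Injective ι := by rw [hι]; exact IsFractionRing.injective _ _
  have hPp : (toQ P).IsPrimitive := hP.isPrimitive hP0'.ne'
  have hP' : Irreducible ((toQ P).map ι) := by
    rw [hι]
    exact (IsPrimitive.irreducible_iff_irreducible_map_fraction_map (K := FractionRing ℚ[X]) hPp).1 hP
  have hcop : IsCoprime ((toQ P).map ι) ((toQ Q).map ι) := by
    refine (hP'.coprime_iff_not_dvd).2 fun hdvd => hne ?_
    by_cases hQ0 : 0 < (toQ Q).natDegree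
    · have h1 : toQ P ∣ toQ Q := by
        rw [hι] at hdvd
        exact hPp.dvd_of_fraction_map_dvd_fraction_map (K := FractionRing ℚ[X]) hdvd
      exact (hP.dvd_irreducible_iff_associated hQ).1 h1
    · exfalso
      have h2 : ((toQ Q).map ι) ≠ 0 := by
        rw [Ne, Polynomial.map_eq_zero_iff hinj]
        exact hQ.ne_zero
      have h3 := natDegree_le_of_dvd hdvd h2
      rw [natDegree_map_eq_of_injective hinj, natDegree_map_eq_of_injective hinj] at h3
      omega
  have h2 := resultant_ne_zero _ _ hcop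
  rw [natDegree_map_eq_of_injective hinj, natDegree_map_eq_of_injective hinj, resultant_map_map] at h2
  intro h0
  apply h2
  rw [natDegree_toQ, natDegree_toQ]
  unfold toQ
  rw [resultant_map_map, h0, map_zero, map_zero]

/-- the bound for the first coordinate -/
def B1 (d : ℕ) (H : ℤ) : ℤ := (2 * d).factorial * ((d + 1) * H) ^ (2 * d)

/-- **Common zeros.** -/
theorem common_zero {d : ℕ} {H : ℤ} (hH : 1 ≤ H) {P Q : ℤ[X][X]} (hP : Bd d H P) (hQ : Bd d H Q)
    (iP : Irreducible (toQ P)) (iQ : Irreducible (toQ Q)) (hP0 : 0 < P.natDegree)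
    (hne : ¬ Associated (toQ P) (toQ Q)) {x y : ℚ} (eP : (toQ P).evalEval x y = 0)
    (eQ : (toQ Q).evalEval x y = 0) :
    ht x ≤ B1 d H ∧ ht y ≤ (d + 1) * H * B1 d H ^ d := by
  have hd1 : (1 : ℤ) ≤ (d + 1) * H := by
    have : (0 : ℤ) ≤ d := by positivity
    nlinarith
  -- the first coordinate
  have hr0 := resultant_ne_zero' P Q iP iQ hP0 hne
  obtain ⟨hrD, hrB⟩ := Pool.Agent.TH647.NR.resultant_bounds P Q P.natDegree Q.natDegree d H
    (by linarith) hP.degX hQ.degX (fun j k => hP.coeff_le k j) (fun j k => hQ.coeff_le k j)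
  have hx : ht x ≤ B1 d H := by
    refine ht_root_le (resultant P Q) hr0 x ?_ _ (fun k => (hrB k).trans ?_)
    · obtain ⟨p, q, -, -, hpq⟩ := exists_mul_add_mul_eq_C_resultant P Q (m := P.natDegree)
        (n := Q.natDegree) le_rfl le_rfl (Or.inl hP0.ne')
      have h1 := congrArg (fun G => (toQ G).evalEval x y) hpq
      simp only [toQ, Polynomial.map_add, Polynomial.map_mul, evalEval_add, evalEval_mul] at h1
      have eP' : (P.map (mapRingHom (Int.castRingHom ℚ))).evalEval x y = 0 := eP
      have eQ' : (Q.map (mapRingHom (Int.castRingHom ℚ))).evalEval x y = 0 := eQ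
      rw [eP', eQ', zero_mul, zero_mul, add_zero, map_C, evalEval_C] at h1
      rw [aeval_def, eval₂_eq_eval_map]
      exact h1.symm
    · unfold B1
      have hPd := hP.degY
      have hQd := hQ.degY
      have hk : P.natDegree + Q.natDegree ≤ 2 * d := by omega
      have h1 : ((P.natDegree + Q.natDegree).factorial : ℤ) ≤ (2 * d).factorial := by
        exact_mod_cast Nat.factorial_le hk
      exact mul_le_mul h1 (pow_le_pow_right₀ hd1 hk) (by positivity) (by positivity)
  refine ⟨hx, ?_⟩
  have hB1 : 1 ≤ B1 d H := (one_le_ht x).trans hx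
  -- the second coordinate
  obtain ⟨s, hs⟩ : ∃ s : ℤ[X], s = ∑ j ∈ Finset.range (d + 1), C (∑ i ∈ Finset.range (d + 1),
    (P.coeff j).coeff i * x.num ^ i * (x.den : ℤ) ^ (d - i)) * X ^ j := ⟨_, rfl⟩
  have hsc : ∀ k, s.coeff k = if k < d + 1 then ∑ i ∈ Finset.range (d + 1),
      (P.coeff k).coeff i * x.num ^ i * (x.den : ℤ) ^ (d - i) else 0 := by
    intro k
    rw [hs, finsetSum_coeff]
    simp only [coeff_C_mul, coeff_X_pow]
    split_ifs with hk
    · rw [Finset.sum_eq_single k]
      · rw [if_pos rfl, mul_one]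
      · intro j _ hj
        rw [if_neg (Ne.symm hj), mul_zero]
      · intro h
        exact absurd (Finset.mem_range.2 hk) h
    · refine Finset.sum_eq_zero fun j hj => ?_
      rw [Finset.mem_range] at hj
      rw [if_neg (by omega), mul_zero]
  have hden0 : ((x.den : ℕ) : ℚ) ≠ 0 := by
    have := x.den_pos
    positivity
  have hsm : s.map (Int.castRingHom ℚ) = C (((x.den : ℕ) : ℚ) ^ d) *
      (toQ P).map (evalRingHom x) := by
    ext k
    rw [coeff_map, hsc, coeff_C_mul, coeff_map, coe_evalRingHom]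
    split_ifs with hk
    · rw [eval_eq_sum_range' (show ((toQ P).coeff k).natDegree < d + 1 by
        have := (natDegree_toQ_le hP).2 k; omega), Finset.mul_sum, map_sum]
      refine Finset.sum_congr rfl fun i hi => ?_
      rw [Finset.mem_range] at hi
      rw [coeff_toQ]
      have e1 : ((x.den : ℕ) : ℚ) ^ d = ((x.den : ℕ) : ℚ) ^ i * ((x.den : ℕ) : ℚ) ^ (d - i) := by
        rw [← pow_add]
        congr 1
        omega
      have e2 : x ^ i * ((x.den : ℕ) : ℚ) ^ i = (x.num : ℚ) ^ i := by
        rw [← mul_pow, Rat.mul_den_eq_num]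
      rw [e1]
      calc (Int.castRingHom ℚ) ((P.coeff k).coeff i * x.num ^ i * (x.den : ℤ) ^ (d - i)) =
            ((P.coeff k).coeff i : ℚ) * (x.num : ℚ) ^ i * ((x.den : ℕ) : ℚ) ^ (d - i) := by
            simp
        _ = _ := by
            rw [← e2]
            ring
    · have h1 : (toQ P).coeff k = 0 := coeff_eq_zero_of_natDegree_lt (by
        have := (natDegree_toQ_le hP).1; omega)
      rw [h1, eval_zero, mul_zero, map_zero]
  have hs0 : s ≠ 0 := by
    rintro rfl
    rw [Polynomial.map_zero] at hsm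
    rcases mul_eq_zero.1 hsm.symm with h | h
    · rw [C_eq_zero] at h
      exact pow_ne_zero _ hden0 h
    · exact eval_C_ne_zero iP (by rwa [natDegree_toQ]) x h
  refine ht_root_le s hs0 y ?_ _ (fun k => ?_)
  · rw [aeval_def, eval₂_eq_eval_map]
    have h1 : (algebraMap ℤ ℚ) = Int.castRingHom ℚ := rfl
    rw [h1, hsm, eval_mul, eval_C]
    have h2 : ((toQ P).map (evalRingHom x)).eval y = (toQ P).evalEval x y := by
      have e : eval (C y) (toQ P) = ∑ i ∈ Finset.range ((toQ P).natDegree + 1),
        (toQ P).coeff i * C y ^ i := eval_eq_sum_range _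
      rw [evalEval, eval_map, eval₂_eq_sum_range, e, eval_finsetSum]
      refine Finset.sum_congr rfl fun i _ => ?_
      rw [eval_mul, eval_pow, eval_C, coe_evalRingHom]
    rw [h2, eP, mul_zero]
  · rw [hsc]
    have hpos : (0 : ℤ) ≤ (d + 1) * H * B1 d H ^ d := by positivity
    split_ifs with hk
    · calc |∑ i ∈ Finset.range (d + 1), (P.coeff k).coeff i * x.num ^ i * (x.den : ℤ) ^ (d - i)| ≤
            ∑ i ∈ Finset.range (d + 1), |(P.coeff k).coeff i * x.num ^ i * (x.den : ℤ) ^ (d - i)| :=
            Finset.abs_sum_le_sum_abs _ _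
        _ ≤ ∑ _i ∈ Finset.range (d + 1), H * B1 d H ^ d := by
            refine Finset.sum_le_sum fun i hi => ?_
            rw [Finset.mem_range] at hi
            rw [abs_mul, abs_mul, abs_pow, abs_pow,
              abs_of_nonneg (by positivity : (0 : ℤ) ≤ (x.den : ℤ)), mul_assoc]
            refine mul_le_mul (hP.coeff_le _ _) ?_ (by positivity) (by linarith)
            have e1 : B1 d H ^ d = B1 d H ^ i * B1 d H ^ (d - i) := by
              rw [← pow_add]
              congr 1
              omega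
            rw [e1]
            refine mul_le_mul (pow_le_pow_left₀ (abs_nonneg _) ((le_max_left _ _).trans hx) _)
              (pow_le_pow_left₀ (by positivity) ((le_max_right _ _).trans hx) _)
              (by positivity) (by positivity)
        _ = _ := by
            rw [Finset.sum_const, Finset.card_range, nsmul_eq_mul]
            push_cast
            ring
    · rw [abs_zero]
      exact hpos

end Pool.Agent.Q146.PC
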