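import Mathlib
import Pool.Agent.Q146.PC.Poly

/-!
# Plane curves: scalings
-/

set_option autoImplicit false

namespace Pool.Agent.Q146.PC

open Polynomial

/-- the substitution `x ↦ u x`, `y ↦ v y` -/
noncomputable def sc (u v : ℚ) : ℚ[X][X] →+* ℚ[X][X] :=
  (compRingHom (C (C v) * X)).comp (mapRingHom (compRingHom (C u * X)))

theorem coeff_sc (u v : ℚ) (G : ℚ[X][X]) (i j : ℕ) :
    ((sc u v G).coeff j).coeff i = (G.coeff j).coeff i * u ^ i * v ^ j := by
  unfold sc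
  rw [RingHom.comp_apply, coe_mapRingHom, coe_compRingHom_apply, comp_C_mul_X_coeff, coeff_map,
    coe_compRingHom_apply, ← C_pow, coeff_mul_C, comp_C_mul_X_coeff]

theorem sc_sc {u v : ℚ} (hu : u ≠ 0) (hv : v ≠ 0) (G : ℚ[X][X]) : sc u⁻¹ v⁻¹ (sc u v G) = G := by
  ext j i
  rw [coeff_sc, coeff_sc]
  have h : (G.coeff j).coeff i * u ^ i * v ^ j * u⁻¹ ^ i * v⁻¹ ^ j =
      (G.coeff j).coeff i * (u * u⁻¹) ^ i * (v * v⁻¹) ^ j := by
    rw [mul_pow, mul_pow]
    ring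
  rw [h, mul_inv_cancel₀ hu, mul_inv_cancel₀ hv, one_pow, one_pow, mul_one, mul_one]

theorem sc_one (G : ℚ[X][X]) : sc 1 1 G = G := by
  ext j i
  rw [coeff_sc]
  simp

theorem sc_irreducible {u v : ℚ} (hu : u ≠ 0) (hv : v ≠ 0) {G : ℚ[X][X]} (hG : Irreducible G) :
    Irreducible (sc u v G) := by
  have h1 : (sc u⁻¹ v⁻¹).comp (sc u v) = RingHom.id _ := RingHom.ext fun G => by
    rw [RingHom.comp_apply, sc_sc hu hv, RingHom.id_apply]
  have h2 : (sc u v).comp (sc u⁻¹ v⁻¹) = RingHom.id _ := RingHom.ext fun G => by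
    have := sc_sc (inv_ne_zero hu) (inv_ne_zero hv) G
    rw [inv_inv, inv_inv] at this
    rw [RingHom.comp_apply, this, RingHom.id_apply]
  exact (MulEquiv.irreducible_iff (RingEquiv.ofRingHom (sc u v) (sc u⁻¹ v⁻¹) h2 h1)).2 hG

/-- the scaled polynomial, multiplied by the denominators -/
noncomputable def scZ (d : ℕ) (F : ℤ[X][X]) (u v : ℚ) : ℤ[X][X] :=
  ∑ j ∈ Finset.range (d + 1), C (∑ i ∈ Finset.range (d + 1),
    C ((F.coeff j).coeff i * u.num ^ i * (u.den : ℤ) ^ (d - i) * v.num ^ j *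
      (v.den : ℤ) ^ (d - j)) * X ^ i) * X ^ j

theorem coeff_scZ' (d : ℕ) (F : ℤ[X][X]) (u v : ℚ) (j : ℕ) :
    (scZ d F u v).coeff j = if j < d + 1 then ∑ i ∈ Finset.range (d + 1),
    C ((F.coeff j).coeff i * u.num ^ i * (u.den : ℤ) ^ (d - i) * v.num ^ j *
      (v.den : ℤ) ^ (d - j)) * X ^ i else 0 := by
  unfold scZ
  rw [finsetSum_coeff]
  simp only [coeff_C_mul, coeff_X_pow]
  split_ifs with hk
  · rw [Finset.sum_eq_single j]
    · rw [if_pos rfl, mul_one]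
    · intro j' _ hj
      rw [if_neg (Ne.symm hj), mul_zero]
    · intro h
      exact absurd (Finset.mem_range.2 hk) h
  · refine Finset.sum_eq_zero fun j' hj => ?_
    rw [Finset.mem_range] at hj
    rw [if_neg (by omega), mul_zero]

theorem coeff_scZ (d : ℕ) (F : ℤ[X][X]) (u v : ℚ) (i j : ℕ) :
    ((scZ d F u v).coeff j).coeff i = if j < d + 1 ∧ i < d + 1 then
      (F.coeff j).coeff i * u.num ^ i * (u.den : ℤ) ^ (d - i) * v.num ^ j *
      (v.den : ℤ) ^ (d - j) else 0 := by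
  rw [coeff_scZ']
  by_cases hj : j < d + 1
  · rw [if_pos hj, finsetSum_coeff]
    simp only [coeff_C_mul, coeff_X_pow]
    by_cases hi : i < d + 1
    · rw [if_pos ⟨hj, hi⟩, Finset.sum_eq_single i]
      · rw [if_pos rfl, mul_one]
      · intro i' _ hj
        rw [if_neg (Ne.symm hj), mul_zero]
      · intro h
        exact absurd (Finset.mem_range.2 hi) h
    · rw [if_neg (fun h => hi h.2)]
      refine Finset.sum_eq_zero fun i' hj => ?_
      rw [Finset.mem_range] at hj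
      rw [if_neg (by omega), mul_zero]
  · rw [if_neg hj, if_neg (fun h => hj h.1), coeff_zero]

theorem toQ_scZ {d : ℕ} {H : ℤ} {F : ℤ[X][X]} (hF : Bd d H F) (u v : ℚ) :
    toQ (scZ d F u v) = C (C ((((u.den * v.den) ^ d : ℕ)) : ℚ)) * sc u v (toQ F) := by
  ext j i
  rw [coeff_toQ, coeff_scZ, coeff_C_mul, coeff_C_mul, coeff_sc, coeff_toQ]
  split_ifs with h
  · obtain ⟨hj, hi⟩ := h
    have e1 : ((u.den : ℕ) : ℚ) ^ d = ((u.den : ℕ) : ℚ) ^ i * ((u.den : ℕ) : ℚ) ^ (d - i) := by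
      rw [← pow_add]
      congr 1
      omega
    have e2 : ((v.den : ℕ) : ℚ) ^ d = ((v.den : ℕ) : ℚ) ^ j * ((v.den : ℕ) : ℚ) ^ (d - j) := by
      rw [← pow_add]
      congr 1
      omega
    have e3 : u ^ i * ((u.den : ℕ) : ℚ) ^ i = (u.num : ℚ) ^ i := by
      rw [← mul_pow, Rat.mul_den_eq_num]
    have e4 : v ^ j * ((v.den : ℕ) : ℚ) ^ j = (v.num : ℚ) ^ j := by
      rw [← mul_pow, Rat.mul_den_eq_num]
    push_cast
    rw [mul_pow, e1, e2, ← e3, ← e4]
    ring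
  · have h1 : (F.coeff j).coeff i = 0 := by
      by_cases hj : j < d + 1
      · exact coeff_eq_zero_of_natDegree_lt (by
          have := hF.degX j
          have : ¬ i < d + 1 := fun hi => h ⟨hj, hi⟩
          omega)
      · rw [coeff_eq_zero_of_natDegree_lt (p := F) (by have := hF.degY; omega), coeff_zero]
    rw [h1]
    simp

theorem bd_scZ {d : ℕ} {H M : ℤ} (hH : 0 ≤ H) {F : ℤ[X][X]} (hF : Bd d H F) {u v : ℚ}
    (hu : ht u ≤ M) (hv : ht v ≤ M) : Bd d (H * M ^ (2 * d)) (scZ d F u v) where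
  degY := by
    rw [natDegree_le_iff_coeff_eq_zero]
    intro N hN
    rw [coeff_scZ', if_neg (by omega)]
  degX j := by
    rw [natDegree_le_iff_coeff_eq_zero]
    intro N hN
    rw [coeff_scZ, if_neg (by omega)]
  coeff_le i j := by
    have hM : 1 ≤ M := (one_le_ht u).trans hu
    rw [coeff_scZ]
    split_ifs with h
    · obtain ⟨hj, hi⟩ := h
      rw [abs_mul, abs_mul, abs_mul, abs_mul, abs_pow, abs_pow, abs_pow, abs_pow,
        abs_of_nonneg (by positivity : (0 : ℤ) ≤ (u.den : ℤ)),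
        abs_of_nonneg (by positivity : (0 : ℤ) ≤ (v.den : ℤ))]
      have e1 : M ^ (2 * d) = M ^ i * M ^ (d - i) * (M ^ j * M ^ (d - j)) := by
        rw [← pow_add, ← pow_add, ← pow_add]
        congr 1
        omega
      rw [e1]
      have a1 : |u.num| ^ i ≤ M ^ i := pow_le_pow_left₀ (abs_nonneg _) ((le_max_left _ _).trans hu) _
      have a2 : (u.den : ℤ) ^ (d - i) ≤ M ^ (d - i) :=
        pow_le_pow_left₀ (by positivity) ((le_max_right _ _).trans hu) _
      have a3 : |v.num| ^ j ≤ M ^ j := pow_le_pow_left₀ (abs_nonneg _) ((le_max_left _ _).trans hv) _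
      have a4 : (v.den : ℤ) ^ (d - j) ≤ M ^ (d - j) :=
        pow_le_pow_left₀ (by positivity) ((le_max_right _ _).trans hv) _
      calc |(F.coeff j).coeff i| * |u.num| ^ i * (u.den : ℤ) ^ (d - i) * |v.num| ^ j *
            (v.den : ℤ) ^ (d - j) = |(F.coeff j).coeff i| * (|u.num| ^ i * (u.den : ℤ) ^ (d - i) *
              (|v.num| ^ j * (v.den : ℤ) ^ (d - j))) := by ring
        _ ≤ H * (M ^ i * M ^ (d - i) * (M ^ j * M ^ (d - j))) := by
            refine mul_le_mul (hF.coeff_le _ _) ?_ (by positivity) hH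
            gcongr
    · rw [abs_zero]
      positivity

theorem evalEval_sc {d : ℕ} (G : ℚ[X][X]) (h1 : G.natDegree ≤ d)
    (h2 : ∀ j, (G.coeff j).natDegree ≤ d) (u v x y : ℚ) :
    (sc u v G).evalEval x y = G.evalEval (u * x) (v * y) := by
  have h3 : (sc u v G).natDegree ≤ d := by
    rw [natDegree_le_iff_coeff_eq_zero]
    intro N hN
    ext i
    rw [coeff_sc, coeff_eq_zero_of_natDegree_lt (p := G) (by omega)]
    simp
  have h4 : ∀ j, ((sc u v G).coeff j).natDegree ≤ d := by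
    intro j
    rw [natDegree_le_iff_coeff_eq_zero]
    intro N hN
    rw [coeff_sc, coeff_eq_zero_of_natDegree_lt (p := G.coeff j) (by have := h2 j; omega)]
    simp
  rw [evalEval_eq _ h3 h4, evalEval_eq _ h1 h2]
  refine Finset.sum_congr rfl fun p _ => ?_
  rw [coeff_sc, mul_pow, mul_pow]
  ring

theorem unit_eq {G : ℚ[X][X]} (h : IsUnit G) : ∃ κ : ℚ, κ ≠ 0 ∧ G = C (C κ) := by
  obtain ⟨r, hr, rfl⟩ := isUnit_iff.1 h
  obtain ⟨κ, hκ, rfl⟩ := isUnit_iff.1 hr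
  exact ⟨κ, hκ.ne_zero, rfl⟩

/-- **Two points with small quotients.** -/
theorem scale_eq {d : ℕ} {H M : ℤ} (hH : 1 ≤ H) {F F' : ℤ[X][X]} (hF : Bd d H F)
    (hF' : Bd d H F') (iF : Irreducible (toQ F)) (iF' : Irreducible (toQ F'))
    (h0 : 0 < F'.natDegree) {x y x' y' : ℚ} (hx : x ≠ 0) (hy : y ≠ 0) (hx' : x' ≠ 0) (hy' : y' ≠ 0)
    (e : (toQ F).evalEval x y = 0) (e' : (toQ F').evalEval x' y' = 0)
    (hu : ht (x / x') ≤ M) (hv : ht (y / y') ≤ M)
    (hl : B1 d (H * M ^ (2 * d)) < ht x' ∨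
      (d + 1) * (H * M ^ (2 * d)) * B1 d (H * M ^ (2 * d)) ^ d < ht y') :
    ∃ κ : ℚ, κ ≠ 0 ∧ sc (x / x') (y / y') (toQ F) = C (C κ) * toQ F' := by
  have hM : 1 ≤ M := (one_le_ht _).trans hu
  have hHM : H ≤ H * M ^ (2 * d) := le_mul_of_one_le_right (by linarith) (one_le_pow₀ hM)
  have hu0 : x / x' ≠ 0 := div_ne_zero hx hx'
  have hv0 : y / y' ≠ 0 := div_ne_zero hy hy'
  obtain ⟨c, hc⟩ : ∃ c : ℚ, c = (((((x / x').den * (y / y').den) ^ d : ℕ)) : ℚ) := ⟨_, rfl⟩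
  have hc0 : c ≠ 0 := by
    rw [hc]
    have h1 := (x / x').den_pos
    have h2 := (y / y').den_pos
    positivity
  have hunit : IsUnit (C (C c) : ℚ[X][X]) := isUnit_C.2 (isUnit_C.2 (isUnit_iff_ne_zero.2 hc0))
  have hQ := toQ_scZ hF (x / x') (y / y')
  rw [← hc] at hQ
  have iQ : Irreducible (toQ (scZ d F (x / x') (y / y'))) := by
    rw [hQ]
    exact (irreducible_isUnit_mul hunit).2 (sc_irreducible hu0 hv0 iF)
  have eQ : (toQ (scZ d F (x / x') (y / y'))).evalEval x' y' = 0 := by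
    rw [hQ, evalEval_mul, evalEval_sc _ (natDegree_toQ_le hF).1 (natDegree_toQ_le hF).2,
      div_mul_cancel₀ _ hx', div_mul_cancel₀ _ hy', e, mul_zero]
  have hF'' : Bd d (H * M ^ (2 * d)) F' := ⟨hF'.degY, hF'.degX, fun i j => (hF'.coeff_le i j).trans hHM⟩
  by_cases hass : Associated (toQ F') (toQ (scZ d F (x / x') (y / y')))
  · obtain ⟨w, hw⟩ := hass
    obtain ⟨κ, hκ, hκ'⟩ := unit_eq w.isUnit
    refine ⟨c⁻¹ * κ, mul_ne_zero (inv_ne_zero hc0) hκ, ?_⟩
    rw [hκ', hQ] at hw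
    have h1 : sc (x / x') (y / y') (toQ F) =
        C (C c⁻¹) * (C (C c) * sc (x / x') (y / y') (toQ F)) := by
      rw [← mul_assoc, ← C_mul, ← C_mul, inv_mul_cancel₀ hc0, C_1, C_1, one_mul]
    rw [h1, ← hw, C_mul, C_mul]
    ring
  · exfalso
    obtain ⟨g1, g2⟩ := common_zero (hH.trans hHM) hF'' (bd_scZ (by linarith) hF hu hv) iF' iQ h0
      hass e' eQ
    rcases hl with hl | hl
    · exact absurd g1 (not_le.2 hl)
    · exact absurd g2 (not_le.2 hl)

end Pool.Agent.Q146.PC
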