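import Mathlib
import Pool.Agent.Q146.PC.Scale

/-!
# Plane curves: minimal vanishing sums of terms
-/

set_option autoImplicit false

namespace Pool.Agent.Q146.PC

open Polynomial

/-- a minimal vanishing sum of nonzero terms -/
structure MinVan {J : Type*} (a : J → ℤ) (B : Finset J) : Prop where
  ne : B.Nonempty
  nz : ∀ p ∈ B, a p ≠ 0
  sum : ∑ p ∈ B, a p = 0
  min : ∀ C ⊆ B, C.Nonempty → C ≠ B → ∑ p ∈ C, a p ≠ 0

theorem exists_blocks {J : Type*} [DecidableEq J] (a : J → ℤ) : ∀ (n : ℕ) (I : Finset J),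
    I.card = n → (∀ p ∈ I, a p ≠ 0) → ∑ p ∈ I, a p = 0 →
    ∃ 𝓑 : Finset (Finset J), (∀ B ∈ 𝓑, MinVan a B ∧ B ⊆ I) ∧
      ∀ f : J → ℚ, ∑ p ∈ I, f p = ∑ B ∈ 𝓑, ∑ p ∈ B, f p := by
  intro n
  induction n using Nat.strong_induction_on with
  | _ n ih =>
    intro I hn hnz hs
    rcases I.eq_empty_or_nonempty with rfl | hne
    · exact ⟨∅, by simp, by simp⟩
    obtain ⟨B, hB, hmin⟩ := Finset.exists_min_image
      (I.powerset.filter fun B => B.Nonempty ∧ ∑ p ∈ B, a p = 0) Finset.card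
      ⟨I, by
        rw [Finset.mem_filter, Finset.mem_powerset]
        exact ⟨subset_rfl, hne, hs⟩⟩
    rw [Finset.mem_filter, Finset.mem_powerset] at hB
    obtain ⟨hBI, hBne, hBs⟩ := hB
    have hMV : MinVan a B := by
      refine ⟨hBne, fun p hp => hnz p (hBI hp), hBs, fun C hC hCne hCB h0 => ?_⟩
      have h1 := hmin C (by
        rw [Finset.mem_filter, Finset.mem_powerset]
        exact ⟨hC.trans hBI, hCne, h0⟩)
      exact hCB (Finset.eq_of_subset_of_card_le hC h1)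
    have hlt : (I \ B).card < n := by
      rw [← hn]
      refine Finset.card_lt_card ?_
      refine Finset.ssubset_iff_subset_ne.2 ⟨Finset.sdiff_subset, fun h => ?_⟩
      obtain ⟨p, hp⟩ := hBne
      have := hBI hp
      rw [← h, Finset.mem_sdiff] at this
      exact this.2 hp
    have hs' : ∑ p ∈ I \ B, a p = 0 := by
      have := Finset.sum_sdiff (f := a) hBI
      rw [hBs, hs, add_zero] at this
      exact this
    obtain ⟨𝓑, h1, h2⟩ := ih _ hlt (I \ B) rfl (fun p hp => hnz p (Finset.sdiff_subset hp)) hs'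
    have hnot : B ∉ 𝓑 := by
      intro h
      obtain ⟨p, hp⟩ := hBne
      have := (h1 B h).2 hp
      rw [Finset.mem_sdiff] at this
      exact this.2 hp
    refine ⟨insert B 𝓑, fun B' hB' => ?_, fun f => ?_⟩
    · rcases Finset.mem_insert.1 hB' with rfl | h
      · exact ⟨hMV, hBI⟩
      · exact ⟨(h1 B' h).1, (h1 B' h).2.trans Finset.sdiff_subset⟩
    · rw [Finset.sum_insert hnot, ← h2 f, add_comm]
      exact (Finset.sum_sdiff hBI).symm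

/-- The curve `G = 0` contains no coset of a one-dimensional subtorus: no curve
`t ↦ (x t ^ α, y t ^ β)`. -/
def NoCoset (G : ℚ[X][X]) : Prop :=
  ∀ x y : ℚ, x ≠ 0 → y ≠ 0 → ∀ α β : ℤ, (α ≠ 0 ∨ β ≠ 0) →
    ∃ t : ℚ, t ≠ 0 ∧ G.evalEval (x * t ^ α) (y * t ^ β) ≠ 0

theorem exists_data {d : ℕ} {H : ℤ} {F : ℤ[X][X]} (hF : Bd d H F) (hn : NoCoset (toQ F))
    {x y : ℚ} (hx : x ≠ 0) (hy : y ≠ 0) (e : (toQ F).evalEval x y = 0) {c : ℚ} (hc : c ≠ 0)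
    {a : Fin (d + 1) × Fin (d + 1) → ℤ}
    (ha : ∀ p, (a p : ℚ) = c * (((F.coeff p.2).coeff p.1 : ℚ) * x ^ (p.1 : ℕ) * y ^ (p.2 : ℕ))) :
    ∃ (B1 B2 : Finset (Fin (d + 1) × Fin (d + 1))) (p1 q1 p2 q2 : Fin (d + 1) × Fin (d + 1)),
      MinVan a B1 ∧ MinVan a B2 ∧ p1 ∈ B1 ∧ q1 ∈ B1 ∧ p2 ∈ B2 ∧ q2 ∈ B2 ∧
      (((p1.1 : ℕ) : ℤ) - ((q1.1 : ℕ) : ℤ)) * (((p2.2 : ℕ) : ℤ) - ((q2.2 : ℕ) : ℤ)) -
      (((p2.1 : ℕ) : ℤ) - ((q2.1 : ℕ) : ℤ)) * (((p1.2 : ℕ) : ℤ) - ((q1.2 : ℕ) : ℤ)) ≠ 0 := by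
  classical
  by_contra hcon
  push Not at hcon
  -- the direction
  obtain ⟨α, β, hαβ, hdir⟩ : ∃ α β : ℤ, (α ≠ 0 ∨ β ≠ 0) ∧ ∀ B, MinVan a B → ∀ p ∈ B, ∀ q ∈ B,
      α * (((p.1 : ℕ) : ℤ) - ((q.1 : ℕ) : ℤ)) + β * (((p.2 : ℕ) : ℤ) - ((q.2 : ℕ) : ℤ)) = 0 := by
    by_cases h : ∃ B, MinVan a B ∧ ∃ p ∈ B, ∃ q ∈ B, (((p.1 : ℕ) : ℤ) - ((q.1 : ℕ) : ℤ)) ≠ 0 ∨
        (((p.2 : ℕ) : ℤ) - ((q.2 : ℕ) : ℤ)) ≠ 0
    · obtain ⟨B, hB, p, hp, q, hq, hpq⟩ := h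
      refine ⟨(((p.2 : ℕ) : ℤ) - ((q.2 : ℕ) : ℤ)), -(((p.1 : ℕ) : ℤ) - ((q.1 : ℕ) : ℤ)), ?_, ?_⟩
      · rcases hpq with h | h
        · exact Or.inr (neg_ne_zero.2 h)
        · exact Or.inl h
      · intro B' hB' p' hp' q' hq'
        have h1 := hcon B' B p' q' p q hB' hB hp' hq' hp hq
        linarith
    · push Not at h
      refine ⟨1, 0, Or.inl one_ne_zero, fun B hB p hp q hq => ?_⟩
      have := (h B hB p hp q hq).1
      rw [this]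
      ring
  obtain ⟨t, ht0, ht⟩ := hn x y hx hy α β hαβ
  apply ht
  -- the support
  obtain ⟨I, hI⟩ : ∃ I : Finset (Fin (d + 1) × Fin (d + 1)), I = Finset.univ.filter fun p => a p ≠ 0 :=
    ⟨_, rfl⟩
  have hI' : ∀ p, p ∈ I ↔ a p ≠ 0 := by
    intro p
    rw [hI, Finset.mem_filter]
    simp
  have hsumQ : ∑ p, (a p : ℚ) = 0 := by
    simp only [ha]
    rw [← Finset.mul_sum, ← evalEval_toQ hF, e, mul_zero]
  have hsum : ∑ p ∈ I, a p = 0 := by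
    have h1 : ∑ p, a p = 0 := by exact_mod_cast hsumQ
    rw [hI, Finset.sum_filter_ne_zero]
    exact h1
  obtain ⟨𝓑, hB1, hB2⟩ := exists_blocks a I.card I rfl (fun p hp => (hI' p).1 hp) hsum
  have hval : (toQ F).evalEval (x * t ^ α) (y * t ^ β) =
      ∑ p, c⁻¹ * (a p : ℚ) * t ^ (α * ((p.1 : ℕ) : ℤ) + β * ((p.2 : ℕ) : ℤ)) := by
    rw [evalEval_toQ hF]
    refine Finset.sum_congr rfl fun p _ => ?_
    rw [ha, mul_pow, mul_pow, zpow_add₀ ht0, zpow_mul, zpow_mul, zpow_natCast, zpow_natCast]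
    field_simp
  rw [hval]
  have h1 : ∑ p, c⁻¹ * (a p : ℚ) * t ^ (α * ((p.1 : ℕ) : ℤ) + β * ((p.2 : ℕ) : ℤ)) =
      ∑ p ∈ I, c⁻¹ * (a p : ℚ) * t ^ (α * ((p.1 : ℕ) : ℤ) + β * ((p.2 : ℕ) : ℤ)) := by
    symm
    refine Finset.sum_subset (Finset.subset_univ _) fun p _ hp => ?_
    rw [hI', not_not] at hp
    rw [hp]
    simp
  rw [h1, hB2]
  refine Finset.sum_eq_zero fun B hB => ?_
  obtain ⟨hMV, -⟩ := hB1 B hB
  obtain ⟨q, hq⟩ := hMV.ne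
  have h2 : ∑ p ∈ B, c⁻¹ * (a p : ℚ) * t ^ (α * ((p.1 : ℕ) : ℤ) + β * ((p.2 : ℕ) : ℤ)) =
      ∑ p ∈ B, (a p : ℚ) * (c⁻¹ * t ^ (α * ((q.1 : ℕ) : ℤ) + β * ((q.2 : ℕ) : ℤ))) := by
    refine Finset.sum_congr rfl fun p hp => ?_
    have h3 := hdir B hMV p hp q hq
    have h4 : α * ((p.1 : ℕ) : ℤ) + β * ((p.2 : ℕ) : ℤ) =
        α * ((q.1 : ℕ) : ℤ) + β * ((q.2 : ℕ) : ℤ) := by linarith
    rw [h4]
    ring
  rw [h2, ← Finset.sum_mul]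
  have h5 : ∑ p ∈ B, (a p : ℚ) = 0 := by exact_mod_cast hMV.sum
  rw [h5, zero_mul]

end Pool.Agent.Q146.PC
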