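import Mathlib
import Pool.Agent.Q146.PC.Blocks
import Pool.Agent.Y902.GN.Hl3
import Pool.Agent.Y902.GN.Sc2

/-!
# Plane curves: the terms of a point, and two points with near terms
-/

set_option autoImplicit false

namespace Pool.Agent.Q146.PC

open Polynomial Pool.Agent.Y902.GN

/-- the index set of the monomials -/
abbrev Jd (d : ℕ) : Type := Fin (d + 1) × Fin (d + 1)

/-- `x = z 1 / z 0` and `y = z 2 / z 0`, where `z 0`, `z 1`, `z 2` are, up to sign, products of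
powers of the same `N` integers between `1` and `X`, and at most `exp (X ^ δ)` in absolute value -/
structure Rep (N : ℕ) (δ : ℝ) (X : ℕ) (x y : ℚ) (z : Fin 3 → ℤ) : Prop where
  x_eq : x = z 1 / z 0
  y_eq : y = z 2 / z 0
  gen : ∃ (η : Fin 3 → ℤ) (b : Fin N → ℕ) (e : Fin 3 → Fin N → ℕ), (∀ i, |η i| = 1) ∧
    (∀ j, 1 ≤ b j ∧ b j ≤ X) ∧ ∀ i, z i = η i * ∏ j, (b j : ℤ) ^ e i j
  bound : ∀ i, ((|z i| : ℤ) : ℝ) ≤ Real.exp ((X : ℝ) ^ δ)

theorem Rep.ne {N : ℕ} {δ : ℝ} {X : ℕ} {x y : ℚ} {z : Fin 3 → ℤ} (h : Rep N δ X x y z) (i : Fin 3) :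
    z i ≠ 0 := by
  obtain ⟨η, b, e, hη, hb, hz⟩ := h.gen
  have hb0 : ∀ j, (b j : ℤ) ≠ 0 := fun j => by
    have := (hb j).1
    exact_mod_cast (by omega : b j ≠ 0)
  rw [hz i]
  refine mul_ne_zero ?_ (Finset.prod_ne_zero_iff.2 fun j _ => pow_ne_zero _ (hb0 j))
  intro h0
  have := hη i
  rw [h0, abs_zero] at this
  exact zero_ne_one this

theorem Rep.x_ne {N : ℕ} {δ : ℝ} {X : ℕ} {x y : ℚ} {z : Fin 3 → ℤ} (h : Rep N δ X x y z) :
    x ≠ 0 := by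
  rw [h.x_eq]
  exact div_ne_zero (by exact_mod_cast h.ne 1) (by exact_mod_cast h.ne 0)

theorem Rep.y_ne {N : ℕ} {δ : ℝ} {X : ℕ} {x y : ℚ} {z : Fin 3 → ℤ} (h : Rep N δ X x y z) :
    y ≠ 0 := by
  rw [h.y_eq]
  exact div_ne_zero (by exact_mod_cast h.ne 2) (by exact_mod_cast h.ne 0)

/-- the terms -/
noncomputable def tm (d : ℕ) (F : ℤ[X][X]) (z : Fin 3 → ℤ) (p : Jd d) : ℤ :=
  (F.coeff p.2).coeff p.1 * z 1 ^ (p.1 : ℕ) * z 2 ^ (p.2 : ℕ) * z 0 ^ (2 * d - p.1 - p.2)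

theorem tm_eq {d N : ℕ} {F : ℤ[X][X]} {δ : ℝ} {X : ℕ} {x y : ℚ} {z : Fin 3 → ℤ}
    (h : Rep N δ X x y z) (p : Jd d) : (tm d F z p : ℚ) =
      (z 0 : ℚ) ^ (2 * d) * (((F.coeff p.2).coeff p.1 : ℚ) * x ^ (p.1 : ℕ) * y ^ (p.2 : ℕ)) := by
  have h0 : (z 0 : ℚ) ≠ 0 := by exact_mod_cast h.ne 0
  have hp1 := p.1.2
  have hp2 := p.2.2
  have e1 : (z 0 : ℚ) ^ (2 * d) = (z 0 : ℚ) ^ (p.1 : ℕ) * (z 0 : ℚ) ^ (p.2 : ℕ) *
      (z 0 : ℚ) ^ (2 * d - p.1 - p.2) := by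
    rw [← pow_add, ← pow_add]
    congr 1
    omega
  have e2 : (z 1 : ℚ) = x * z 0 := by rw [h.x_eq]; field_simp
  have e3 : (z 2 : ℚ) = y * z 0 := by rw [h.y_eq]; field_simp
  unfold tm
  push_cast
  rw [e1, e2, e3, mul_pow, mul_pow]
  ring

/-- the vector of the terms of a block -/
noncomputable def bv {d : ℕ} (B : Finset (Jd d)) (a : Jd d → ℤ) : Fin B.card → ℤ :=
  fun k => a (B.equivFin.symm k)

theorem bv_gq {d N E : ℕ} {F : ℤ[X][X]} {δ δ1 : ℝ} {X : ℕ} {x y : ℚ} {z : Fin 3 → ℤ}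
    (hF : Bd d ((X : ℤ) ^ E) F) (h : Rep N δ X x y z) {B : Finset (Jd d)}
    (hB : MinVan (tm d F z) B) (hδ : 0 < δ) (hδ1 : 2 * δ ≤ δ1) (hX : 1 ≤ X)
    (hXl : 2 * ((2 * d : ℕ) : ℝ) + E / δ ≤ (X : ℝ) ^ δ) :
    GqPt B.card N E δ1 X (fun _ => 1) (bv B (tm d F z)) := by
  classical
  have hX1 : (1 : ℤ) ≤ (X : ℤ) := by exact_mod_cast hX
  have hXr : (1 : ℝ) ≤ (X : ℝ) := by exact_mod_cast hX
  have hmem : ∀ k : Fin B.card, ((B.equivFin.symm k : B) : Jd d) ∈ B := fun k =>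
    (B.equivFin.symm k).2
  refine ⟨fun k => hB.nz _ (hmem k), ?_, fun K hK hK' => ?_, fun k => ?_, ?_⟩
  · simp only [one_mul]
    unfold bv
    rw [Equiv.sum_comp B.equivFin.symm (fun p : B => tm d F z p),
      Finset.sum_coe_sort B (tm d F z)]
    exact hB.sum
  · simp only [one_mul]
    obtain ⟨Cs, hCs⟩ : ∃ Cs : Finset (Jd d), Cs = K.image fun k =>
      ((B.equivFin.symm k : B) : Jd d) := ⟨_, rfl⟩
    have hinj : Function.Injective fun k => ((B.equivFin.symm k : B) : Jd d) :=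
      Subtype.val_injective.comp B.equivFin.symm.injective
    have hsum : ∑ k ∈ K, bv B (tm d F z) k = ∑ p ∈ Cs, tm d F z p := by
      rw [hCs, Finset.sum_image (fun k _ l _ hkl => hinj hkl)]
      rfl
    rw [hsum]
    refine hB.min Cs ?_ ?_ ?_
    · rw [hCs]
      intro p hp
      obtain ⟨k, _, rfl⟩ := Finset.mem_image.1 hp
      exact hmem k
    · rw [hCs]
      exact hK.image _
    · intro hCB
      apply hK'
      rw [Finset.eq_univ_iff_forall]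
      intro k
      have h1 : ((B.equivFin.symm k : B) : Jd d) ∈ Cs := by rw [hCB]; exact hmem k
      rw [hCs] at h1
      obtain ⟨l, hl, hlk⟩ := Finset.mem_image.1 h1
      rwa [← hinj hlk]
  · have hp1 := ((B.equivFin.symm k : B) : Jd d).1.2
    have hp2 := ((B.equivFin.symm k : B) : Jd d).2.2
    obtain ⟨p, hp⟩ : ∃ p : Jd d, p = ((B.equivFin.symm k : B) : Jd d) := ⟨_, rfl⟩
    rw [← hp] at hp1 hp2
    have e0 : bv B (tm d F z) k = tm d F z p := by rw [hp]; rfl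
    rw [e0]
    have hE : (0 : ℝ) < Real.exp ((X : ℝ) ^ δ) := Real.exp_pos _
    have h1 : ((|tm d F z p| : ℤ) : ℝ) ≤ (X : ℝ) ^ E * Real.exp ((X : ℝ) ^ δ) ^ (2 * d) := by
      unfold tm
      rw [abs_mul, abs_mul, abs_mul, abs_pow, abs_pow, abs_pow]
      push_cast
      have e1 : Real.exp ((X : ℝ) ^ δ) ^ (2 * d) = Real.exp ((X : ℝ) ^ δ) ^ (p.1 : ℕ) *
          Real.exp ((X : ℝ) ^ δ) ^ (p.2 : ℕ) * Real.exp ((X : ℝ) ^ δ) ^ (2 * d - p.1 - p.2) := by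
        rw [← pow_add, ← pow_add]
        congr 1
        omega
      have b0 := h.bound 0
      have b1 := h.bound 1
      have b2 := h.bound 2
      push_cast at b0 b1 b2
      have b3 : |(((F.coeff p.2).coeff p.1 : ℤ) : ℝ)| ≤ (X : ℝ) ^ E := by
        exact_mod_cast hF.coeff_le p.1 p.2
      rw [e1]
      calc |(((F.coeff p.2).coeff p.1 : ℤ) : ℝ)| * |(z 1 : ℝ)| ^ (p.1 : ℕ) *
            |(z 2 : ℝ)| ^ (p.2 : ℕ) * |(z 0 : ℝ)| ^ (2 * d - p.1 - p.2) ≤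
            (X : ℝ) ^ E * Real.exp ((X : ℝ) ^ δ) ^ (p.1 : ℕ) *
            Real.exp ((X : ℝ) ^ δ) ^ (p.2 : ℕ) * Real.exp ((X : ℝ) ^ δ) ^ (2 * d - p.1 - p.2) := by
            gcongr
        _ = _ := by ring
    refine h1.trans ?_
    have h2 := hl_exp (d := 2 * d) (E := E) hδ hX hXl
    have h3 : (X : ℝ) ^ E * Real.exp ((X : ℝ) ^ δ) ^ (2 * d) ≤
        (((2 * d : ℕ) : ℝ) + 1) * (X : ℝ) ^ E * Real.exp (((2 * d : ℕ) : ℝ) * (X : ℝ) ^ δ) := by
      rw [← Real.exp_nat_mul, mul_assoc]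
      refine le_mul_of_one_le_left (by positivity) ?_
      have : (0 : ℝ) ≤ ((2 * d : ℕ) : ℝ) := Nat.cast_nonneg _
      linarith
    exact (h3.trans h2).trans (Real.exp_le_exp.2 (Real.rpow_le_rpow_of_exponent_le hXr hδ1))
  · obtain ⟨η, b, e, hη, hb, hz⟩ := h.gen
    refine ⟨fun k => (F.coeff ((B.equivFin.symm k : B) : Jd d).2).coeff
        ((B.equivFin.symm k : B) : Jd d).1 * η 1 ^ (((B.equivFin.symm k : B) : Jd d).1 : ℕ) *
        η 2 ^ (((B.equivFin.symm k : B) : Jd d).2 : ℕ) *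
        η 0 ^ (2 * d - ((B.equivFin.symm k : B) : Jd d).1 - ((B.equivFin.symm k : B) : Jd d).2),
      b, fun k j => e 1 j * (((B.equivFin.symm k : B) : Jd d).1 : ℕ) +
        e 2 j * (((B.equivFin.symm k : B) : Jd d).2 : ℕ) +
        e 0 j * (2 * d - ((B.equivFin.symm k : B) : Jd d).1 - ((B.equivFin.symm k : B) : Jd d).2),
      hb, fun k => ?_, fun k => ?_⟩
    · rw [abs_mul, abs_mul, abs_mul, abs_pow, abs_pow, abs_pow, hη, hη, hη, one_pow, one_pow,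
        one_pow, mul_one, mul_one, mul_one]
      exact hF.coeff_le _ _
    · show tm d F z _ = _
      unfold tm
      rw [hz 0, hz 1, hz 2, mul_pow, mul_pow, mul_pow, ← Finset.prod_pow, ← Finset.prod_pow,
        ← Finset.prod_pow]
      simp only [← pow_mul, pow_add, Finset.prod_mul_distrib]
      ring

theorem NearP.symm' {n C Y : ℕ} {a b : Fin n → ℤ} (h : NearP C Y a b) : NearP C Y b a := by
  intro i i0
  obtain ⟨r, r', h1, h2, h3, h4, h5⟩ := h i i0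
  exact ⟨r', r, h2, h1, h4, h3, h5.symm⟩

/-- two vectors near the same vector -/
theorem near_ht {n C Y : ℕ} {a a' b : Fin n → ℤ} (ha : ∀ i, a i ≠ 0) (ha' : ∀ i, a' i ≠ 0)
    (hb : ∀ i, b i ≠ 0) (h : NearP C Y a b) (h' : NearP C Y a' b) (i i0 : Fin n) :
    ht (((a i : ℚ) / a i0) / ((a' i : ℚ) / a' i0)) ≤ (((Y : ℤ) + 2) ^ C) ^ 2 := by
  obtain ⟨r, r', h1, h2, h3, h4, h5⟩ := h i i0
  obtain ⟨s, s', g1, g2, g3, g4, g5⟩ := h' i i0
  have q : ∀ {w : ℤ}, w ≠ 0 → (w : ℚ) ≠ 0 := fun hw => by exact_mod_cast hw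
  have hai := q (ha i)
  have hai0 := q (ha i0)
  have hai' := q (ha' i)
  have hai0' := q (ha' i0)
  have hbi := q (hb i)
  have hbi0 := q (hb i0)
  have e5 : (r : ℚ) * (a i * b i0) = r' * (b i * a i0) := by exact_mod_cast h5
  have g5' : (s : ℚ) * (a' i * b i0) = s' * (b i * a' i0) := by exact_mod_cast g5
  have e : ((a i : ℚ) / a i0) / ((a' i : ℚ) / a' i0) = ((r' * s : ℤ) : ℚ) / ((r * s' : ℤ) : ℚ) := by
    have hr := q h1
    have hs' := q g2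
    rw [div_div_div_eq, div_eq_div_iff (mul_ne_zero hai0 hai') (by push_cast; exact mul_ne_zero hr hs')]
    push_cast
    have h6 : (b i * b i0 : ℚ) ≠ 0 := mul_ne_zero hbi hbi0
    refine mul_right_cancel₀ h6 ?_
    calc (a i : ℚ) * a' i0 * (r * s') * (b i * b i0) = (r * (a i * b i0)) * (s' * (b i * a' i0)) := by
          ring
      _ = (r' * (b i * a i0)) * (s * (a' i * b i0)) := by rw [e5, g5']
      _ = _ := by ring
  rw [e]
  refine (ht_div_le _ _ (mul_ne_zero h2 g1) (mul_ne_zero h1 g2)).trans ?_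
  rw [abs_mul, abs_mul, pow_two]
  have hp : (0 : ℤ) ≤ ((Y : ℤ) + 2) ^ C := by positivity
  exact max_le (mul_le_mul h4 g3 (abs_nonneg _) hp) (mul_le_mul h3 g4 (abs_nonneg _) hp)

end Pool.Agent.Q146.PC
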