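import Mathlib
import Pool.Agent.Q146.PC.Near

/-!
# Plane curves: few classes of large generated points
-/

set_option autoImplicit false

namespace Pool.Agent.Q146.PC

open Polynomial Pool.Agent.Y902.GN

/-- `(x, y)` is a rational point, not on the axes, of the plane curve `F = 0`, `F` irreducible over
the rationals, of degree at most `d` in each variable, with coefficients at most `X ^ E`, the curve
contains no coset of a subtorus, the point is generated by `N` integers between `1` and `X`, and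
its height is more than `X ^ K`. -/
structure Large (d N E K : ℕ) (δ : ℝ) (X : ℕ) (F : ℤ[X][X]) (x y : ℚ) : Prop where
  bd : Bd d ((X : ℤ) ^ E) F
  irr : Irreducible (toQ F)
  noc : NoCoset (toQ F)
  eqn : (toQ F).evalEval x y = 0
  rep : ∃ z, Rep N δ X x y z
  large : (X : ℤ) ^ K < max (ht x) (ht y)

theorem natDegree_pos {F : ℤ[X][X]} (hn : NoCoset (toQ F)) {x y : ℚ} (hx : x ≠ 0) (hy : y ≠ 0)
    (e : (toQ F).evalEval x y = 0) : 0 < F.natDegree := by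
  rw [Nat.pos_iff_ne_zero]
  intro h0
  obtain ⟨t, ht, h⟩ := hn x y hx hy 0 1 (Or.inr one_ne_zero)
  apply h
  have h1 : (toQ F).natDegree = 0 := by rw [natDegree_toQ, h0]
  rw [eq_C_of_natDegree_eq_zero h1, evalEval_C] at e ⊢
  rwa [zpow_zero, mul_one]

/-- representatives of the classes -/
theorem reps (n N E : ℕ) (ε : ℝ) (hε : 0 < ε) : ∃ (C : ℕ) (δ : ℝ), 0 < δ ∧
    ∀ Y : ℕ, 1 ≤ Y → ∃ R : Finset (Fin n → ℤ), (R.card : ℝ) ≤ (Y : ℝ) ^ ε ∧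
      (∀ b ∈ R, GqPt n N E δ Y (fun _ => 1) b) ∧
      ∀ a, GqPt n N E δ Y (fun _ => 1) a → ∃ b ∈ R, NearP C Y a b := by
  obtain ⟨C, δ, hδ, H⟩ := gq n N E ε hε
  refine ⟨C, δ, hδ, fun Y hY => ?_⟩
  obtain ⟨T, h1, h2, h3⟩ := max_sep {a : Fin n → ℤ | GqPt n N E δ Y (fun _ => 1) a}
    (NearP C Y) (NearP.refl C Y) (fun a b h => NearP.symm' h) ((Y : ℝ) ^ ε)
    (fun T hT hT' => H Y hY (fun _ => 1) (fun _ => ⟨one_ne_zero, by
      simp only [abs_one, Int.cast_one]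
      exact Real.one_le_exp (by positivity)⟩) T hT hT')
  exact ⟨T, h2, h1, fun a ha => h3 a ha⟩

/-- the exponents -/
def k1 (d E C : ℕ) : ℕ := (4 * C + 2 * E) * (2 * d)
/-- the exponents -/
def k2 (d E C : ℕ) : ℕ := E + k1 d E C * (2 * d)
/-- the exponents -/
def k3 (d E C : ℕ) : ℕ := (2 * d).factorial + ((d + 1) + k2 d E C) * (2 * d)
/-- the exponents -/
def k4 (d E C : ℕ) : ℕ := (d + 1) + k2 d E C + k3 d E C * d

theorem nat_le_pow {X : ℕ} (hX : 2 ≤ X) (n : ℕ) : (n : ℤ) ≤ (X : ℤ) ^ n := by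
  have h1 : n ≤ 2 ^ n := Nat.lt_two_pow_self.le
  have h2 : 2 ^ n ≤ X ^ n := Nat.pow_le_pow_left hX n
  exact_mod_cast h1.trans h2

theorem B1_le {d E C X : ℕ} (hX : 2 ≤ X) :
    B1 d ((X : ℤ) ^ E * ((X : ℤ) ^ k1 d E C) ^ (2 * d)) ≤ (X : ℤ) ^ k3 d E C := by
  unfold B1 k3
  have e : (X : ℤ) ^ E * ((X : ℤ) ^ k1 d E C) ^ (2 * d) = (X : ℤ) ^ k2 d E C := by
    unfold k2
    rw [← pow_mul, ← pow_add]
  have e2 : (X : ℤ) ^ ((2 * d).factorial + ((d + 1) + k2 d E C) * (2 * d)) =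
      (X : ℤ) ^ (2 * d).factorial * ((X : ℤ) ^ (d + 1) * (X : ℤ) ^ k2 d E C) ^ (2 * d) := by
    rw [pow_add, pow_mul, pow_add (X : ℤ) (d + 1)]
  rw [e, e2]
  have h1 := nat_le_pow hX (2 * d).factorial
  have h2 := nat_le_pow hX (d + 1)
  push_cast at h2
  gcongr

theorem B2_le {d E C X : ℕ} (hX : 2 ≤ X) :
    (d + 1) * ((X : ℤ) ^ E * ((X : ℤ) ^ k1 d E C) ^ (2 * d)) *
      B1 d ((X : ℤ) ^ E * ((X : ℤ) ^ k1 d E C) ^ (2 * d)) ^ d ≤ (X : ℤ) ^ k4 d E C := by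
  have h0 := B1_le (d := d) (E := E) (C := C) hX
  have e : (X : ℤ) ^ E * ((X : ℤ) ^ k1 d E C) ^ (2 * d) = (X : ℤ) ^ k2 d E C := by
    unfold k2
    rw [← pow_mul, ← pow_add]
  rw [e] at h0 ⊢
  unfold k4
  rw [pow_add, pow_mul, pow_add]
  have h2 := nat_le_pow hX (d + 1)
  push_cast at h2
  have h3 : 0 ≤ B1 d ((X : ℤ) ^ k2 d E C) := by
    unfold B1
    positivity
  gcongr

theorem ratio {d N : ℕ} {F F' : ℤ[X][X]} {δ : ℝ} {X : ℕ} {x y x' y' : ℚ} {z z' : Fin 3 → ℤ}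
    (hz : Rep N δ X x y z) (hz' : Rep N δ X x' y' z') {p q : Jd d}
    (hp : tm d F z p ≠ 0) (hq : tm d F z q ≠ 0) (hp' : tm d F' z' p ≠ 0) (hq' : tm d F' z' q ≠ 0) :
    (x / x') ^ (((p.1 : ℕ) : ℤ) - ((q.1 : ℕ) : ℤ)) * (y / y') ^ (((p.2 : ℕ) : ℤ) - ((q.2 : ℕ) : ℤ)) =
      (((tm d F z p : ℚ) / tm d F z q) / ((tm d F' z' p : ℚ) / tm d F' z' q)) *
      ((((F.coeff q.2).coeff q.1 * (F'.coeff p.2).coeff p.1 : ℤ) : ℚ) /
        (((F.coeff p.2).coeff p.1 * (F'.coeff q.2).coeff q.1 : ℤ) : ℚ)) := by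
  have hx := hz.x_ne
  have hy := hz.y_ne
  have hx' := hz'.x_ne
  have hy' := hz'.y_ne
  have q0 : (z 0 : ℚ) ≠ 0 := by exact_mod_cast hz.ne 0
  have q0' : (z' 0 : ℚ) ≠ 0 := by exact_mod_cast hz'.ne 0
  have c1 : ((F.coeff p.2).coeff p.1 : ℚ) ≠ 0 := by
    intro h
    apply hp
    have : (F.coeff p.2).coeff p.1 = 0 := by exact_mod_cast h
    unfold tm
    rw [this]
    ring
  have c2 : ((F.coeff q.2).coeff q.1 : ℚ) ≠ 0 := by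
    intro h
    apply hq
    have : (F.coeff q.2).coeff q.1 = 0 := by exact_mod_cast h
    unfold tm
    rw [this]
    ring
  have c3 : ((F'.coeff p.2).coeff p.1 : ℚ) ≠ 0 := by
    intro h
    apply hp'
    have : (F'.coeff p.2).coeff p.1 = 0 := by exact_mod_cast h
    unfold tm
    rw [this]
    ring
  have c4 : ((F'.coeff q.2).coeff q.1 : ℚ) ≠ 0 := by
    intro h
    apply hq'
    have : (F'.coeff q.2).coeff q.1 = 0 := by exact_mod_cast h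
    unfold tm
    rw [this]
    ring
  rw [tm_eq hz p, tm_eq hz q, tm_eq hz' p, tm_eq hz' q, zpow_sub₀ (div_ne_zero hx hx'),
    zpow_sub₀ (div_ne_zero hy hy'), zpow_natCast, zpow_natCast, zpow_natCast, zpow_natCast,
    div_pow, div_pow, div_pow, div_pow]
  push_cast
  field_simp

theorem ratio_ht {d N E C : ℕ} {F F' : ℤ[X][X]} {δ : ℝ} {X : ℕ} (hX : 2 ≤ X) {x y x' y' : ℚ}
    {z z' : Fin 3 → ℤ} (hF : Bd d ((X : ℤ) ^ E) F) (hF' : Bd d ((X : ℤ) ^ E) F')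
    (hz : Rep N δ X x y z) (hz' : Rep N δ X x' y' z') {B : Finset (Jd d)}
    (m : MinVan (tm d F z) B) (m' : MinVan (tm d F' z') B) {b : Fin B.card → ℤ}
    (hb : ∀ i, b i ≠ 0) (n : NearP C X (bv B (tm d F z)) b) (n' : NearP C X (bv B (tm d F' z')) b)
    {p q : Jd d} (hp : p ∈ B) (hq : q ∈ B) :
    ht ((x / x') ^ (((p.1 : ℕ) : ℤ) - ((q.1 : ℕ) : ℤ)) *
      (y / y') ^ (((p.2 : ℕ) : ℤ) - ((q.2 : ℕ) : ℤ))) ≤ (X : ℤ) ^ (4 * C + 2 * E) := by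
  have hX1 : (1 : ℤ) ≤ (X : ℤ) := by exact_mod_cast (by omega : 1 ≤ X)
  have a1 := m.nz p hp
  have a2 := m.nz q hq
  have a3 := m'.nz p hp
  have a4 := m'.nz q hq
  rw [ratio hz hz' a1 a2 a3 a4]
  have q1 : ((tm d F z p : ℤ) : ℚ) ≠ 0 := by exact_mod_cast a1
  have q2 : ((tm d F z q : ℤ) : ℚ) ≠ 0 := by exact_mod_cast a2
  have q3 : ((tm d F' z' p : ℤ) : ℚ) ≠ 0 := by exact_mod_cast a3
  have q4 : ((tm d F' z' q : ℤ) : ℚ) ≠ 0 := by exact_mod_cast a4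
  have cz : ∀ {G : ℤ[X][X]} {w : Fin 3 → ℤ} {r : Jd d}, tm d G w r ≠ 0 →
      (G.coeff r.2).coeff r.1 ≠ 0 := by
    intro G w r h h0
    apply h
    unfold tm
    rw [h0]
    ring
  have d1 : (F.coeff q.2).coeff q.1 * (F'.coeff p.2).coeff p.1 ≠ 0 := mul_ne_zero (cz a2) (cz a3)
  have d2 : (F.coeff p.2).coeff p.1 * (F'.coeff q.2).coeff q.1 ≠ 0 := mul_ne_zero (cz a1) (cz a4)
  refine (ht_mul _ _ (div_ne_zero (div_ne_zero q1 q2) (div_ne_zero q3 q4))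
    (div_ne_zero (by exact_mod_cast d1) (by exact_mod_cast d2))).trans ?_
  have h1 : ht (((tm d F z p : ℚ) / tm d F z q) / ((tm d F' z' p : ℚ) / tm d F' z' q)) ≤
      (X : ℤ) ^ (4 * C) := by
    have h2 := near_ht (i := B.equivFin ⟨p, hp⟩) (i0 := B.equivFin ⟨q, hq⟩)
      (fun k => m.nz _ (B.equivFin.symm k).2) (fun k => m'.nz _ (B.equivFin.symm k).2) hb n n'
    simp only [Equiv.symm_apply_apply] at h2
    refine h2.trans ?_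
    rw [← pow_mul]
    have h3 : (X : ℤ) + 2 ≤ (X : ℤ) ^ 2 := by
      have : (2 : ℤ) ≤ X := by exact_mod_cast hX
      nlinarith
    calc ((X : ℤ) + 2) ^ (C * 2) ≤ ((X : ℤ) ^ 2) ^ (C * 2) := pow_le_pow_left₀ (by positivity) h3 _
      _ = (X : ℤ) ^ (4 * C) := by
          rw [← pow_mul]
          congr 1
          ring
  have h2 : ht ((((F.coeff q.2).coeff q.1 * (F'.coeff p.2).coeff p.1 : ℤ) : ℚ) /
        (((F.coeff p.2).coeff p.1 * (F'.coeff q.2).coeff q.1 : ℤ) : ℚ)) ≤ (X : ℤ) ^ (2 * E) := by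
    refine (ht_div_le _ _ d1 d2).trans ?_
    rw [abs_mul, abs_mul, two_mul, pow_add]
    exact max_le (mul_le_mul (hF.coeff_le _ _) (hF'.coeff_le _ _) (abs_nonneg _) (by positivity))
      (mul_le_mul (hF.coeff_le _ _) (hF'.coeff_le _ _) (abs_nonneg _) (by positivity))
  rw [pow_add]
  exact mul_le_mul h1 h2 (ht_nonneg _) (by positivity)

/-- the scaling equivalence -/
def Scl (F : ℤ[X][X]) (x y : ℚ) (F' : ℤ[X][X]) (x' y' : ℚ) : Prop :=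
  ∃ u v κ : ℚ, u ≠ 0 ∧ v ≠ 0 ∧ κ ≠ 0 ∧ x = u * x' ∧ y = v * y' ∧
    sc u v (toQ F) = C (C κ) * toQ F'

theorem key {d N E C K : ℕ} {δ : ℝ} {X : ℕ} (hX : 2 ≤ X) {F F' : ℤ[X][X]} {x y x' y' : ℚ}
    {z z' : Fin 3 → ℤ} (hL : Large d N E K δ X F x y) (hL' : Large d N E K δ X F' x' y')
    (hz : Rep N δ X x y z) (hz' : Rep N δ X x' y' z') {B₁ B₂ : Finset (Jd d)} {p₁ q₁ p₂ q₂ : Jd d}
    (m1 : MinVan (tm d F z) B₁) (m1' : MinVan (tm d F' z') B₁)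
    (m2 : MinVan (tm d F z) B₂) (m2' : MinVan (tm d F' z') B₂)
    (hp1 : p₁ ∈ B₁) (hq1 : q₁ ∈ B₁) (hp2 : p₂ ∈ B₂) (hq2 : q₂ ∈ B₂)
    (hdet : (((p₁.1 : ℕ) : ℤ) - ((q₁.1 : ℕ) : ℤ)) * (((p₂.2 : ℕ) : ℤ) - ((q₂.2 : ℕ) : ℤ)) -
      (((p₂.1 : ℕ) : ℤ) - ((q₂.1 : ℕ) : ℤ)) * (((p₁.2 : ℕ) : ℤ) - ((q₁.2 : ℕ) : ℤ)) ≠ 0)
    {b₁ : Fin B₁.card → ℤ} {b₂ : Fin B₂.card → ℤ} (hb1 : ∀ i, b₁ i ≠ 0) (hb2 : ∀ i, b₂ i ≠ 0)
    (n1 : NearP C X (bv B₁ (tm d F z)) b₁) (n1' : NearP C X (bv B₁ (tm d F' z')) b₁)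
    (n2 : NearP C X (bv B₂ (tm d F z)) b₂) (n2' : NearP C X (bv B₂ (tm d F' z')) b₂)
    (hK : k3 d E C + k4 d E C ≤ K) : Scl F x y F' x' y' := by
  have hX1 : (1 : ℤ) ≤ (X : ℤ) := by exact_mod_cast (by omega : 1 ≤ X)
  have hx := hz.x_ne
  have hy := hz.y_ne
  have hx' := hz'.x_ne
  have hy' := hz'.y_ne
  have hfin : ∀ a b : Fin (d + 1), ((((a : ℕ) : ℤ) - ((b : ℕ) : ℤ))).natAbs ≤ d := by
    intro a b
    have := a.2
    have := b.2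
    omega
  obtain ⟨hu, hv⟩ := ht_le_of_two (div_ne_zero hx hx') (div_ne_zero hy hy') hdet
    (hfin p₁.1 q₁.1) (hfin p₁.2 q₁.2) (hfin p₂.1 q₂.1) (hfin p₂.2 q₂.2)
    (ratio_ht hX hL.bd hL'.bd hz hz' m1 m1' hb1 n1 n1' hp1 hq1)
    (ratio_ht hX hL.bd hL'.bd hz hz' m2 m2' hb2 n2 n2' hp2 hq2)
  rw [← pow_mul] at hu hv
  have hlarge : (X : ℤ) ^ k3 d E C < ht x' ∨ (X : ℤ) ^ k4 d E C < ht y' := by
    have h1 := hL'.large
    rcases lt_max_iff.1 h1 with h | h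
    · exact Or.inl ((pow_le_pow_right₀ hX1 (by omega)).trans_lt h)
    · exact Or.inr ((pow_le_pow_right₀ hX1 (by omega)).trans_lt h)
  obtain ⟨κ, hκ, hsc⟩ := scale_eq (M := (X : ℤ) ^ k1 d E C) (one_le_pow₀ hX1) hL.bd hL'.bd
    hL.irr hL'.irr (natDegree_pos hL'.noc hx' hy' hL'.eqn) hx hy hx' hy' hL.eqn hL'.eqn hu hv (by
      rcases hlarge with h | h
      · exact Or.inl ((B1_le hX).trans_lt h)
      · exact Or.inr ((B2_le hX).trans_lt h))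
  exact ⟨x / x', y / y', κ, div_ne_zero hx hx', div_ne_zero hy hy', hκ, by field_simp,
    by field_simp, hsc⟩

/-- **Few classes of large points.** -/
theorem count (d N E : ℕ) (ε : ℝ) (hε : 0 < ε) : ∃ (K : ℕ) (δ : ℝ), 0 < δ ∧
    ∀ X : ℕ, 2 ≤ X → ∀ T : Finset (ℤ[X][X] × ℚ × ℚ),
      (∀ t ∈ T, Large d N E K δ X t.1 t.2.1 t.2.2) →
      (∀ s ∈ T, ∀ t ∈ T, s ≠ t → ¬ Scl s.1 s.2.1 s.2.2 t.1 t.2.1 t.2.2) →
      (T.card : ℝ) ≤ (X : ℝ) ^ ε := by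
  classical
  have hr := fun n : ℕ => reps n N E (ε / 4) (by positivity)
  choose Cn δ' hδ' H using hr
  obtain ⟨m, hm⟩ : ∃ m, m = (d + 1) * (d + 1) + 1 := ⟨_, rfl⟩
  have hne : (Finset.range m).Nonempty := ⟨0, Finset.mem_range.2 (by omega)⟩
  obtain ⟨δ1, hδ1, hδ1'⟩ : ∃ δ1 : ℝ, 0 < δ1 ∧ ∀ n ∈ Finset.range m, δ1 ≤ δ' n :=
    ⟨(Finset.range m).inf' hne δ', (Finset.lt_inf'_iff hne).2 fun n _ => hδ' n,
      fun n hn => Finset.inf'_le _ hn⟩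
  obtain ⟨C1, hC1⟩ : ∃ C1 : ℕ, ∀ n ∈ Finset.range m, Cn n ≤ C1 :=
    ⟨∑ n ∈ Finset.range m, Cn n, fun n hn =>
      Finset.single_le_sum (f := Cn) (fun _ _ => Nat.zero_le _) hn⟩
  obtain ⟨δ, hδ, hδa, hδb⟩ : ∃ δ : ℝ, 0 < δ ∧ 2 * δ ≤ δ1 ∧ δ ≤ 1 :=
    ⟨min (δ1 / 2) 1, by positivity, by
      have := min_le_left (δ1 / 2) 1
      linarith, min_le_right _ _⟩
  -- the finite type of the data
  obtain ⟨Dc, hDc⟩ : ∃ Dc : ℕ, Dc = Fintype.card ((Finset (Jd d) × Finset (Jd d)) ×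
    (Jd d × Jd d) × (Jd d × Jd d)) := ⟨_, rfl⟩
  obtain ⟨Y1, hY1⟩ : ∃ Y1 : ℕ, Y1 = ⌈(2 * ((2 * d : ℕ) : ℝ) + E / δ) ^ (1 / δ)⌉₊ +
      ⌈((Dc : ℝ) * (m : ℝ) ^ 2) ^ (2 / ε)⌉₊ := ⟨_, rfl⟩
  refine ⟨k3 d E C1 + k4 d E C1 + 2 * Y1, δ, hδ, fun X hX T hT hT' => ?_⟩
  have hXr : (1 : ℝ) ≤ (X : ℝ) := by exact_mod_cast (by omega : 1 ≤ X)
  have hX0 : (0 : ℝ) < (X : ℝ) := by linarith
  rcases T.eq_empty_or_nonempty with rfl | ⟨t0, ht0⟩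
  · rw [Finset.card_empty, Nat.cast_zero]
    positivity
  -- `X` is large
  have hXY1 : Y1 ≤ X := by
    by_contra hcon
    push Not at hcon
    have h1 := hT t0 ht0
    obtain ⟨z, hz⟩ := h1.rep
    have hxz : ((ht t0.2.1 : ℤ) : ℝ) ≤ Real.exp ((X : ℝ) ^ δ) := by
      have e1 : ht t0.2.1 ≤ max |z 1| |z 0| := by
        rw [hz.x_eq]
        exact ht_div_le _ _ (hz.ne 1) (hz.ne 0)
      have e2 : ((ht t0.2.1 : ℤ) : ℝ) ≤ ((max |z 1| |z 0| : ℤ) : ℝ) := by exact_mod_cast e1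
      refine e2.trans ?_
      rw [Int.cast_max]
      exact max_le (hz.bound 1) (hz.bound 0)
    have hyz : ((ht t0.2.2 : ℤ) : ℝ) ≤ Real.exp ((X : ℝ) ^ δ) := by
      have e1 : ht t0.2.2 ≤ max |z 2| |z 0| := by
        rw [hz.y_eq]
        exact ht_div_le _ _ (hz.ne 2) (hz.ne 0)
      have e2 : ((ht t0.2.2 : ℤ) : ℝ) ≤ ((max |z 2| |z 0| : ℤ) : ℝ) := by exact_mod_cast e1
      refine e2.trans ?_
      rw [Int.cast_max]
      exact max_le (hz.bound 2) (hz.bound 0)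
    have h2 : ((X : ℝ)) ^ (k3 d E C1 + k4 d E C1 + 2 * Y1) < Real.exp X := by
      have e1 : ((X : ℝ)) ^ (k3 d E C1 + k4 d E C1 + 2 * Y1) <
          ((max (ht t0.2.1) (ht t0.2.2) : ℤ) : ℝ) := by exact_mod_cast h1.large
      refine e1.trans_le (le_trans ?_ (Real.exp_le_exp.2 (show (X : ℝ) ^ δ ≤ X from ?_)))
      · rw [Int.cast_max]
        exact max_le hxz hyz
      · calc (X : ℝ) ^ δ ≤ (X : ℝ) ^ (1 : ℝ) := Real.rpow_le_rpow_of_exponent_le hXr hδb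
          _ = _ := Real.rpow_one _
    have h3 : Real.exp (X : ℝ) ≤ (2 : ℝ) ^ (2 * X) := by
      rw [← Real.exp_log (show (0 : ℝ) < 2 ^ (2 * X) by positivity), Real.log_pow]
      apply Real.exp_le_exp.2
      have h5 : (1 : ℝ) / 2 < Real.log 2 := by
        have := Real.log_two_gt_d9
        linarith
      push_cast
      nlinarith
    have h4 : (2 : ℝ) ^ (2 * X) ≤ (X : ℝ) ^ (k3 d E C1 + k4 d E C1 + 2 * Y1) := by
      calc (2 : ℝ) ^ (2 * X) ≤ (2 : ℝ) ^ (k3 d E C1 + k4 d E C1 + 2 * Y1) :=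
            pow_le_pow_right₀ (by norm_num) (by omega)
        _ ≤ _ := pow_le_pow_left₀ (by norm_num) (by exact_mod_cast hX) _
    linarith
  have hXl : 2 * ((2 * d : ℕ) : ℝ) + E / δ ≤ (X : ℝ) ^ δ := by
    have h1 : (2 * ((2 * d : ℕ) : ℝ) + E / δ) ^ (1 / δ) ≤ (X : ℝ) := by
      refine (Nat.le_ceil _).trans ?_
      exact_mod_cast (by omega : ⌈(2 * ((2 * d : ℕ) : ℝ) + E / δ) ^ (1 / δ)⌉₊ ≤ X)
    have h2 := Real.rpow_le_rpow (by positivity) h1 hδ.le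
    rwa [← Real.rpow_mul (by positivity), one_div_mul_cancel hδ.ne', Real.rpow_one] at h2
  have hDm : (Dc : ℝ) * (m : ℝ) ^ 2 ≤ (X : ℝ) ^ (ε / 2) := by
    have h1 : ((Dc : ℝ) * (m : ℝ) ^ 2) ^ (2 / ε) ≤ (X : ℝ) := by
      refine (Nat.le_ceil _).trans ?_
      exact_mod_cast (by omega : ⌈((Dc : ℝ) * (m : ℝ) ^ 2) ^ (2 / ε)⌉₊ ≤ X)
    have h2 := Real.rpow_le_rpow (by positivity) h1 (show (0 : ℝ) ≤ ε / 2 by positivity)
    rwa [← Real.rpow_mul (by positivity), show 2 / ε * (ε / 2) = 1 by field_simp,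
      Real.rpow_one] at h2
  -- representatives
  have hR := fun n : ℕ => H n X (by omega)
  choose R hR1 hR2 hR3 using hR
  obtain ⟨RR, hRR⟩ : ∃ RR : Finset (Σ n : ℕ, (Fin n → ℤ)), RR = (Finset.range m).sigma R := ⟨_, rfl⟩
  have hRRc : (RR.card : ℝ) ≤ (m : ℝ) * (X : ℝ) ^ (ε / 4) := by
    rw [hRR, Finset.card_sigma]
    push_cast
    calc ∑ n ∈ Finset.range m, ((R n).card : ℝ) ≤ ∑ _n ∈ Finset.range m, (X : ℝ) ^ (ε / 4) :=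
          Finset.sum_le_sum fun n _ => hR1 n
      _ = _ := by rw [Finset.sum_const, Finset.card_range, nsmul_eq_mul]
  -- the data of the points
  have hdata : ∀ t ∈ T, ∃ (z : Fin 3 → ℤ) (D : (Finset (Jd d) × Finset (Jd d)) ×
      (Jd d × Jd d) × (Jd d × Jd d)) (b : (Σ n : ℕ, (Fin n → ℤ)) × (Σ n : ℕ, (Fin n → ℤ))),
      Rep N δ X t.2.1 t.2.2 z ∧ MinVan (tm d t.1 z) D.1.1 ∧ MinVan (tm d t.1 z) D.1.2 ∧
      D.2.1.1 ∈ D.1.1 ∧ D.2.1.2 ∈ D.1.1 ∧ D.2.2.1 ∈ D.1.2 ∧ D.2.2.2 ∈ D.1.2 ∧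
      (((D.2.1.1.1 : ℕ) : ℤ) - ((D.2.1.2.1 : ℕ) : ℤ)) *
        (((D.2.2.1.2 : ℕ) : ℤ) - ((D.2.2.2.2 : ℕ) : ℤ)) -
      (((D.2.2.1.1 : ℕ) : ℤ) - ((D.2.2.2.1 : ℕ) : ℤ)) *
        (((D.2.1.1.2 : ℕ) : ℤ) - ((D.2.1.2.2 : ℕ) : ℤ)) ≠ 0 ∧
      b.1 ∈ RR ∧ b.2 ∈ RR ∧
      (∃ b1 : Fin D.1.1.card → ℤ, b.1 = ⟨D.1.1.card, b1⟩ ∧ (∀ i, b1 i ≠ 0) ∧
        NearP C1 X (bv D.1.1 (tm d t.1 z)) b1) ∧
      (∃ b2 : Fin D.1.2.card → ℤ, b.2 = ⟨D.1.2.card, b2⟩ ∧ (∀ i, b2 i ≠ 0) ∧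
        NearP C1 X (bv D.1.2 (tm d t.1 z)) b2) := by
    intro t ht
    have hL := hT t ht
    obtain ⟨z, hz⟩ := hL.rep
    obtain ⟨B₁, B₂, p1, q1, p2, q2, m1, m2, hp1, hq1, hp2, hq2, hdet⟩ :=
      exists_data hL.bd hL.noc hz.x_ne hz.y_ne hL.eqn
        (pow_ne_zero (2 * d) (show (z 0 : ℚ) ≠ 0 by exact_mod_cast hz.ne 0)) (tm_eq hz)
    have hcard : ∀ B : Finset (Jd d), B.card ∈ Finset.range m := by
      intro B
      rw [Finset.mem_range]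
      have h1 : B.card ≤ (d + 1) * (d + 1) := (Finset.card_le_univ B).trans (by simp)
      omega
    have hnear : ∀ B : Finset (Jd d), MinVan (tm d t.1 z) B → ∃ b : Fin B.card → ℤ,
        (⟨B.card, b⟩ : Σ n : ℕ, (Fin n → ℤ)) ∈ RR ∧ (∀ i, b i ≠ 0) ∧
        NearP C1 X (bv B (tm d t.1 z)) b := by
      intro B hB
      have hg := bv_gq hL.bd hz hB hδ (hδa.trans (hδ1' _ (hcard B))) (by omega) hXl
      obtain ⟨b, hb, hb'⟩ := hR3 B.card _ hg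
      refine ⟨b, ?_, (hR2 _ b hb).nz, fun i i0 => ?_⟩
      · rw [hRR, Finset.mem_sigma]
        exact ⟨hcard B, hb⟩
      · obtain ⟨r, r', g1, g2, g3, g4, g5⟩ := hb' i i0
        have hmon : ((X : ℤ) + 2) ^ Cn B.card ≤ ((X : ℤ) + 2) ^ C1 :=
          pow_le_pow_right₀ (by
            have : (0 : ℤ) ≤ (X : ℤ) := by positivity
            linarith) (hC1 _ (hcard B))
        exact ⟨r, r', g1, g2, g3.trans hmon, g4.trans hmon, g5⟩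
    obtain ⟨b1, hb1, hb1', hb1''⟩ := hnear B₁ m1
    obtain ⟨b2, hb2, hb2', hb2''⟩ := hnear B₂ m2
    exact ⟨z, ((B₁, B₂), (p1, q1), (p2, q2)), (⟨_, b1⟩, ⟨_, b2⟩), hz, m1, m2, hp1, hq1, hp2, hq2,
      hdet, hb1, hb2, ⟨b1, rfl, hb1', hb1''⟩, ⟨b2, rfl, hb2', hb2''⟩⟩
  choose! Z D b hd using hdata
  have hinj : Set.InjOn (fun t => (D t, b t)) (T : Set (ℤ[X][X] × ℚ × ℚ)) := by
    intro s hs t ht hst
    by_contra hne
    have hs' := Finset.mem_coe.1 hs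
    have ht' := Finset.mem_coe.1 ht
    refine hT' s hs' t ht' hne ?_
    simp only [Prod.mk.injEq] at hst
    obtain ⟨hD, hb⟩ := hst
    have hdt := hd t ht'
    rw [← hD, ← hb] at hdt
    obtain ⟨s1, s2, s3, s4, s5, s6, s7, s8, -, -, ⟨b1, s9, s10, s11⟩, ⟨b2, s12, s13, s14⟩⟩ := hd s hs'
    obtain ⟨t1, t2, t3, -, -, -, -, -, -, -, ⟨c1, t9, t10, t11⟩, ⟨c2, t12, t13, t14⟩⟩ := hdt
    have f1 : b1 = c1 := by
      have h := s9.symm.trans t9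
      simpa using h
    have f2 : b2 = c2 := by
      have h := s12.symm.trans t12
      simpa using h
    rw [← f1] at t11
    rw [← f2] at t14
    exact key hX (hT s hs') (hT t ht') s1 t1 s2 t2 s3 t3 s4 s5 s6 s7 s8 s10 s13 s11 t11 s14 t14
      (by omega)
  have hcardT : T.card ≤ ((Finset.univ : Finset ((Finset (Jd d) × Finset (Jd d)) ×
      (Jd d × Jd d) × (Jd d × Jd d))) ×ˢ (RR ×ˢ RR)).card := by
    refine Finset.card_le_card_of_injOn (fun t => (D t, b t)) ?_ hinj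
    intro t ht
    have h := hd t (Finset.mem_coe.1 ht)
    rw [Finset.mem_coe, Finset.mem_product, Finset.mem_product]
    exact ⟨Finset.mem_univ _, h.2.2.2.2.2.2.2.2.1, h.2.2.2.2.2.2.2.2.2.1⟩
  rw [Finset.card_product, Finset.card_product, Finset.card_univ, ← hDc] at hcardT
  calc (T.card : ℝ) ≤ ((Dc * (RR.card * RR.card) : ℕ) : ℝ) := by exact_mod_cast hcardT
    _ = (Dc : ℝ) * ((RR.card : ℝ) * (RR.card : ℝ)) := by push_cast; rfl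
    _ ≤ (Dc : ℝ) * (((m : ℝ) * (X : ℝ) ^ (ε / 4)) * ((m : ℝ) * (X : ℝ) ^ (ε / 4))) := by gcongr
    _ = ((Dc : ℝ) * (m : ℝ) ^ 2) * ((X : ℝ) ^ (ε / 4) * (X : ℝ) ^ (ε / 4)) := by ring
    _ = ((Dc : ℝ) * (m : ℝ) ^ 2) * (X : ℝ) ^ (ε / 2) := by
        rw [← Real.rpow_add hX0]
        congr 2
        ring
    _ ≤ (X : ℝ) ^ (ε / 2) * (X : ℝ) ^ (ε / 2) :=
        mul_le_mul_of_nonneg_right hDm (by positivity)
    _ = (X : ℝ) ^ ε := by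
        rw [← Real.rpow_add hX0]
        congr 1
        ring

end Pool.Agent.Q146.PC
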