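import Mathlib
import Pool.Agent.Q146.PC.Count

/-!
# Plane curves: the relation of scaling, and the large generated points of one curve
-/

set_option autoImplicit false

namespace Pool.Agent.Q146.PC

open Polynomial Pool.Agent.Y902.GN

theorem scl_refl (F : ℤ[X][X]) (x y : ℚ) : Scl F x y F x y :=
  ⟨1, 1, 1, one_ne_zero, one_ne_zero, one_ne_zero, by simp, by simp, by rw [sc_one]; simp⟩

theorem sc_symm {F F' : ℤ[X][X]} {u v κ : ℚ} (hu : u ≠ 0) (hv : v ≠ 0) (hκ : κ ≠ 0)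
    (h : sc u v (toQ F) = C (C κ) * toQ F') : sc u⁻¹ v⁻¹ (toQ F') = C (C κ⁻¹) * toQ F := by
  have h1 := congrArg (sc u⁻¹ v⁻¹) h
  rw [sc_sc hu hv, map_mul] at h1
  have h2 : sc u⁻¹ v⁻¹ (C (C κ)) = C (C κ) := by
    ext j i
    rw [coeff_sc]
    rcases j with _ | j
    · rw [coeff_C_zero]
      rcases i with _ | i
      · simp
      · simp
    · simp
  rw [h2] at h1
  rw [h1, ← mul_assoc, ← C_mul, ← C_mul, inv_mul_cancel₀ hκ, C_1, C_1, one_mul]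

theorem scl_symm {F F' : ℤ[X][X]} {x y x' y' : ℚ} (h : Scl F x y F' x' y') :
    Scl F' x' y' F x y := by
  obtain ⟨u, v, κ, hu, hv, hκ, h1, h2, h3⟩ := h
  refine ⟨u⁻¹, v⁻¹, κ⁻¹, inv_ne_zero hu, inv_ne_zero hv, inv_ne_zero hκ, ?_, ?_,
    sc_symm hu hv hκ h3⟩
  · rw [h1]; field_simp
  · rw [h2]; field_simp

theorem eq_pm_one {u : ℚ} (hu : u ≠ 0) (h : ht u ≤ 1) : u = 1 ∨ u = -1 := by
  unfold ht at h
  have h1 : |u.num| ≤ 1 := (le_max_left _ _).trans h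
  have h2 : (u.den : ℤ) ≤ 1 := (le_max_right _ _).trans h
  have h3 : u.den = 1 := by
    have := u.den_pos
    omega
  have h4 : u.num = 1 ∨ u.num = -1 := by
    have := Rat.num_ne_zero.2 hu
    rcases abs_le.1 h1 with ⟨a, b⟩
    omega
  have h5 : u = u.num := by
    conv_lhs => rw [← Rat.num_div_den u, h3]
    simp
  rcases h4 with h | h <;> rw [h5, h] <;> simp

theorem ht_one : ht 1 = 1 := by simp [ht]

/-- the scalings of an irreducible curve without cosets to itself are changes of signs -/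
theorem auto {d N : ℕ} {H : ℤ} {δ : ℝ} {X : ℕ} {F : ℤ[X][X]} (hF : Bd d H F)
    (hn : NoCoset (toQ F)) {x y : ℚ} {z : Fin 3 → ℤ} (hz : Rep N δ X x y z)
    (e : (toQ F).evalEval x y = 0) {u v κ : ℚ} (hu : u ≠ 0) (hv : v ≠ 0) (hκ : κ ≠ 0)
    (h : sc u v (toQ F) = C (C κ) * toQ F) : (u = 1 ∨ u = -1) ∧ (v = 1 ∨ v = -1) := by
  obtain ⟨B1, B2, p1, q1, p2, q2, m1, m2, hp1, hq1, hp2, hq2, hdet⟩ :=
    exists_data hF hn hz.x_ne hz.y_ne e (c := (z 0 : ℚ) ^ (2 * d))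
      (pow_ne_zero _ (by exact_mod_cast hz.ne 0)) (a := tm d F z) (tm_eq hz)
  have key : ∀ p : Jd d, tm d F z p ≠ 0 → u ^ (p.1 : ℕ) * v ^ (p.2 : ℕ) = κ := by
    intro p hp
    have h1 := congrArg (fun G : ℚ[X][X] => (G.coeff p.2).coeff p.1) h
    rw [coeff_sc, coeff_C_mul, coeff_C_mul] at h1
    have h2 : ((toQ F).coeff p.2).coeff p.1 ≠ 0 := by
      intro h0
      apply hp
      have h4 : (F.coeff p.2).coeff p.1 = 0 := by
        have h5 : ((F.coeff p.2).coeff p.1 : ℚ) = 0 := by rw [← coeff_toQ]; exact h0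
        exact_mod_cast h5
      unfold tm
      rw [h4]
      ring
    have h3 : (((toQ F).coeff p.2).coeff p.1) * (u ^ (p.1 : ℕ) * v ^ (p.2 : ℕ)) =
        ((toQ F).coeff p.2).coeff p.1 * κ := by
      rw [← mul_assoc, h1]
      ring
    exact mul_left_cancel₀ h2 h3
  have key2 : ∀ p q : Jd d, tm d F z p ≠ 0 → tm d F z q ≠ 0 →
      ht (u ^ (((p.1 : ℕ) : ℤ) - ((q.1 : ℕ) : ℤ)) * v ^ (((p.2 : ℕ) : ℤ) - ((q.2 : ℕ) : ℤ))) ≤
        1 := by
    intro p q hp hq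
    have h1 : u ^ (((p.1 : ℕ) : ℤ) - ((q.1 : ℕ) : ℤ)) *
        v ^ (((p.2 : ℕ) : ℤ) - ((q.2 : ℕ) : ℤ)) = 1 := by
      rw [zpow_sub₀ hu, zpow_sub₀ hv, zpow_natCast, zpow_natCast, zpow_natCast, zpow_natCast,
        div_mul_div_comm, key p hp, key q hq, div_self hκ]
    rw [h1, ht_one]
  have hd : ∀ i j : Fin (d + 1), (((i : ℕ) : ℤ) - ((j : ℕ) : ℤ)).natAbs ≤ d := fun i j => by
    have := i.2
    have := j.2
    omega
  obtain ⟨a, b⟩ := ht_le_of_two hu hv hdet (d := d) (hd _ _) (hd _ _) (hd _ _) (hd _ _) (M := 1)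
    (key2 p1 q1 (m1.nz _ hp1) (m1.nz _ hq1)) (key2 p2 q2 (m2.nz _ hp2) (m2.nz _ hq2))
  rw [one_pow] at a b
  exact ⟨eq_pm_one hu a, eq_pm_one hv b⟩

/-- the points of one curve -/
theorem one_curve {d N E K : ℕ} {δ : ℝ} {X : ℕ} {c : ℝ}
    (H : ∀ T : Finset (ℤ[X][X] × ℚ × ℚ), (∀ t ∈ T, Large d N E K δ X t.1 t.2.1 t.2.2) →
      (∀ t ∈ T, ∀ t' ∈ T, t ≠ t' → ¬ Scl t.1 t.2.1 t.2.2 t'.1 t'.2.1 t'.2.2) →
      (T.card : ℝ) ≤ c) (F : ℤ[X][X]) (T : Finset (ℚ × ℚ))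
    (hT : ∀ t ∈ T, Large d N E K δ X F t.1 t.2) : (T.card : ℝ) ≤ 4 * c := by
  classical
  obtain ⟨S, hS1, hS2, hS3⟩ := max_sep {t : ℚ × ℚ | Large d N E K δ X F t.1 t.2}
    (fun s t => Scl F s.1 s.2 F t.1 t.2) (fun s => scl_refl _ _ _) (fun s t => scl_symm) c
    (fun T h1 h2 => by
      rw [← Finset.card_image_of_injective T
        (f := fun t : ℚ × ℚ => (F, t)) (fun a b h => (Prod.mk.inj h).2)]
      refine H _ ?_ ?_
      · intro t ht
        obtain ⟨s, hs, rfl⟩ := Finset.mem_image.1 ht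
        exact h1 s hs
      · intro t ht t' ht' hne
        obtain ⟨s, hs, rfl⟩ := Finset.mem_image.1 ht
        obtain ⟨s', hs', rfl⟩ := Finset.mem_image.1 ht'
        exact h2 s hs s' hs' (fun h => hne (by rw [h])))
  have hsub : T ⊆ S.biUnion fun s => {(s.1, s.2), (s.1, -s.2), (-s.1, s.2), (-s.1, -s.2)} := by
    intro t ht
    have hL := hT t ht
    obtain ⟨s, hs, u, v, κ, hu, hv, hκ, h1, h2, h3⟩ := hS3 t hL
    obtain ⟨z, hz⟩ := hL.rep
    obtain ⟨a, b⟩ := auto hL.bd hL.noc hz hL.eqn hu hv hκ h3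
    rw [Finset.mem_biUnion]
    refine ⟨s, hs, ?_⟩
    simp only [Finset.mem_insert, Finset.mem_singleton]
    have e : t = (u * s.1, v * s.2) := Prod.ext h1 h2
    rw [e]
    rcases a with rfl | rfl <;> rcases b with rfl | rfl <;> simp
  have h4 : T.card ≤ S.card * 4 := by
    refine (Finset.card_le_card hsub).trans (Finset.card_biUnion_le_card_mul _ _ _ fun s _ => ?_)
    exact Finset.card_le_four
  calc (T.card : ℝ) ≤ ((S.card * 4 : ℕ) : ℝ) := by exact_mod_cast h4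
    _ = 4 * (S.card : ℝ) := by push_cast; ring
    _ ≤ 4 * c := by gcongr

end Pool.Agent.Q146.PC
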